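import Pool.Agent.H610R2.Dim.Types

/-!
One block of the construction.
-/

namespace Pool.Agent.H610R2.Dim

open Finset

/-- the constant of machine `e` -/
noncomputable def CC (e : ℕ) : ℝ := 1500 * 2 ^ e

theorem CC_pos (e : ℕ) : 0 < CC e := by
  unfold CC
  positivity

theorem exists_sample {m0 N : ℕ} {past : HP} (β' : Bet) (e : ℕ) (β : Bet) (J : ℕ) (me : ℕ → ℕ)
    (τ : Bool) (Q : Finset ℕ) (hQ : 0 < Q.card)
    (hpast : ∀ q ∈ past, idx q.1 < m0) (hm0 : 5 ≤ m0)
    (hpoly : ∀ e ≤ J, ∀ m ≥ m0, 6 * (m + 1) * Pool.Agent.H578R2.tb e (2 * m + 2) *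
      ((m + 1) * (m + 2)) ≤ 2 ^ (2 * (str m).length ^ 2))
    (hN : ∀ e ≤ J, 2 * (15 / 16 : ℝ) ^ N ≤ (1 / 2) ^ e / 100)
    (hm : ∀ e ≤ J, (1 : ℝ) / (m0 + 1) ≤ (1 / 2) ^ e / 100)
    (herr : ∑ ω : Sp m0 N × Sp m0 N, ((errs e β τ Q (Hs τ past ω)).card : ℝ) ≤
        2 / 5 * Q.card * (Fintype.card (Sp m0 N × Sp m0 N) : ℝ)) :
    ∃ ω : Sp m0 N × Sp m0 N, 20 * (errs e β τ Q (Hs τ past ω)).card ≤ 9 * Q.card ∧
      (∀ e ≤ J, ω ∉ badV e β' m0 N τ past (CC e)) ∧
      (∀ e ≤ J, ω ∉ badH e β' (me e) m0 N τ past) := by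
  classical
  set c := (Fintype.card (Sp m0 N × Sp m0 N) : ℝ) with hc
  have hcpos : 0 < c := by
    rw [hc]
    exact_mod_cast Fintype.card_pos
  have hQ' : (0 : ℝ) < Q.card := by exact_mod_cast hQ
  set B0 : Finset (Sp m0 N × Sp m0 N) := univ.filter fun ω =>
    9 * Q.card < 20 * (errs e β τ Q (Hs τ past ω)).card with hB0
  have h0 : (B0.card : ℝ) ≤ 8 / 9 * c := by
    refine markov (fun ω => ((errs e β τ Q (Hs τ past ω)).card : ℝ)) (fun ω => by positivity)
      (9 / 20 * Q.card) _ (by positivity) ?_ _ (fun ω hω => ?_)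
    · refine herr.trans (le_of_eq ?_)
      ring
    · have : (9 * Q.card : ℝ) < 20 * (errs e β τ Q (Hs τ past ω)).card := by exact_mod_cast hω
      linarith
  set B1 : Finset (Sp m0 N × Sp m0 N) := (Finset.range (J + 1)).biUnion fun e =>
    badV e β' m0 N τ past (CC e) ∪ badH e β' (me e) m0 N τ past with hB1
  have h1 : (B1.card : ℝ) ≤ 6 / 100 * c := by
    have hg : ∀ n : ℕ, ∑ e ∈ Finset.range n, (1 / 2 : ℝ) ^ e ≤ 2 := by
      intro n
      have := geom_sum_eq (x := (1 / 2 : ℝ)) (by norm_num) n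
      rw [this]
      have h2 : (0 : ℝ) ≤ (1 / 2) ^ n := by positivity
      have h3 : ((1 / 2 : ℝ) ^ n - 1) / (1 / 2 - 1) = 2 - 2 * (1 / 2) ^ n := by ring
      rw [h3]
      linarith
    calc (B1.card : ℝ) ≤ ∑ e ∈ Finset.range (J + 1),
          (((badV e β' m0 N τ past (CC e) ∪ badH e β' (me e) m0 N τ past).card : ℕ) : ℝ) := by
          exact_mod_cast Finset.card_biUnion_le
      _ ≤ ∑ e ∈ Finset.range (J + 1), 3 * (1 / 2 : ℝ) ^ e / 100 * c := by
          refine Finset.sum_le_sum fun e he => ?_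
          rw [Finset.mem_range, Nat.lt_succ_iff] at he
          have c1 := card_badV (N := N) (τ := τ) e β' hpast hm0 (CC e) (CC_pos e)
          have c2 := card_badH (N := N) (τ := τ) e β' (me e) hpast (hpoly e he)
          have c3 : (15 : ℝ) / CC e = (1 / 2) ^ e / 100 := by
            unfold CC
            rw [one_div, inv_pow]
            field_simp
            norm_num
          rw [c3] at c1
          have c4 := hN e he
          have c5 := hm e he
          have c6 : (((badV e β' m0 N τ past (CC e) ∪ badH e β' (me e) m0 N τ past).card : ℕ) : ℝ)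
              ≤ (badV e β' m0 N τ past (CC e)).card + (badH e β' (me e) m0 N τ past).card := by
            exact_mod_cast Finset.card_union_le _ _
          have c7 : ((1 / 2 : ℝ) ^ e / 100 + 2 * (15 / 16) ^ N) * c ≤
              ((1 / 2 : ℝ) ^ e / 100 + (1 / 2) ^ e / 100) * c :=
            mul_le_mul_of_nonneg_right (by linarith) hcpos.le
          have c8 : (1 : ℝ) / (m0 + 1) * c ≤ (1 / 2) ^ e / 100 * c :=
            mul_le_mul_of_nonneg_right c5 hcpos.le
          calc _ ≤ _ := c6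
            _ ≤ ((1 / 2 : ℝ) ^ e / 100 + (1 / 2) ^ e / 100) * c + (1 / 2) ^ e / 100 * c := by
              linarith
            _ = _ := by ring
      _ = (∑ e ∈ Finset.range (J + 1), (1 / 2 : ℝ) ^ e) * (3 / 100 * c) := by
          rw [Finset.sum_mul]
          refine Finset.sum_congr rfl fun e _ => ?_
          ring
      _ ≤ 2 * (3 / 100 * c) := mul_le_mul_of_nonneg_right (hg _) (by positivity)
      _ = _ := by ring
  have h2 : (B0 ∪ B1).card < Fintype.card (Sp m0 N × Sp m0 N) := by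
    have h3 : ((B0 ∪ B1).card : ℝ) < c := by
      have h4 : ((B0 ∪ B1).card : ℝ) ≤ B0.card + B1.card := by
        exact_mod_cast Finset.card_union_le _ _
      linarith
    rw [hc] at h3
    exact_mod_cast h3
  obtain ⟨ω, hω⟩ : ∃ ω, ω ∉ B0 ∪ B1 := by
    by_contra hcon
    push Not at hcon
    have h3 : B0 ∪ B1 = univ := by
      ext ω
      simp only [Finset.mem_univ, iff_true]
      exact hcon ω
    rw [h3, Finset.card_univ] at h2
    exact lt_irrefl _ h2
  rw [Finset.mem_union, not_or] at hω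
  refine ⟨ω, ?_, ?_, ?_⟩
  · by_contra hcon
    exact hω.1 (Finset.mem_filter.2 ⟨Finset.mem_univ _, not_le.1 hcon⟩)
  · intro e he hcon
    exact hω.2 (Finset.mem_biUnion.2 ⟨e, Finset.mem_range.2 (by omega),
      Finset.mem_union_left _ hcon⟩)
  · intro e he hcon
    exact hω.2 (Finset.mem_biUnion.2 ⟨e, Finset.mem_range.2 (by omega),
      Finset.mem_union_right _ hcon⟩)

/-- the properties of one block: the block consists of the strings number `m0`, …, `m1 - 1`, the
machine `es` is treated on the inputs of length `n` -/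
structure Step (J es n m0 m1 : ℕ) (me : ℕ → ℕ) (H : HP) (β : Bet) (H' : HP) (β' : Bet) : Prop where
  ext : Hlt H' m0 = H
  bd : ∀ q ∈ H', idx q.1 < m1
  same : ∀ e x, ¬ (e = es ∧ x.length = n) → β' e x = β e x
  big : 2 ^ n ≤ 2 * (betPl β' es n).card
  err : 20 * (errPl β' {x | Ac es β' x H'} es n).card ≤ 9 * (betPl β' es n).card
  hit : ∀ e ≤ J, ∀ m, m0 ≤ m → m < m1 → ¬ Hit e β' (me e) H' m
  val : ∀ e ≤ J, ∀ m, m0 < m → m ≤ m1 → V e β' m0 H' m ≤ CC e * (V e β' m0 H' m0 + 1)
  fin : ∀ e ≤ J, V e β' m0 H' m1 ≤ (V e β' m0 H' m0 + 1) / 2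

theorem level_length {n i : ℕ} (hi : i ∈ Finset.Ico (2 ^ n - 1) (2 ^ (n + 1) - 1)) :
    (str i).length = n := by
  rw [Finset.mem_Ico] at hi
  have h1 : n ≤ (str i).length := by
    rw [le_length_str]
    omega
  have h2 : (str i).length < n + 1 := by
    rw [length_str_lt]
    omega
  omega

open Pool.Agent.H578R2 in
theorem Ac_congr_bet {e : ℕ} {β β' : Bet} {x : List Bool} {H : HP}
    (h : ∀ e', ∀ i < x.length + tb e x.length, β e' (str i) = β' e' (str i)) :
    Ac e β x H ↔ Ac e β' x H := by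
  unfold Ac
  refine exists_congr fun w => ?_
  obtain ⟨Q, h1, h2, h3⟩ := Acc.local e x w (orc H β')
  refine h3 (orc H β) fun s hs => ?_
  exact orc_congr (h2 s hs) h (fun _ _ _ => Iff.rfl)

theorem exists_step (J es n a m0 m1 : ℕ) (me : ℕ → ℕ) (H : HP) (β : Bet) (hm0 : m0 = 2 ^ a - 1)
    (hm01 : m0 ≤ m1) (h5 : 5 ≤ m0) (hH : ∀ q ∈ H, idx q.1 < m0)
    (hpoly : ∀ e ≤ J, ∀ m ≥ m0, 6 * (m + 1) * Pool.Agent.H578R2.tb e (2 * m + 2) *
      ((m + 1) * (m + 2)) ≤ 2 ^ (2 * (str m).length ^ 2))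
    (hN : ∀ e ≤ J, 2 * (15 / 16 : ℝ) ^ (m1 - m0) ≤ (1 / 2) ^ e / 100)
    (hm : ∀ e ≤ J, (1 : ℝ) / (m0 + 1) ≤ (1 / 2) ^ e / 100)
    (hε : 50 * Pool.Agent.H578R2.tb es n ≤ 2 ^ (2 * a ^ 2))
    (hq : n + Pool.Agent.H578R2.tb es n ≤ 2 ^ n - 1) :
    ∃ (H' : HP) (β' : Bet), Step J es n m0 m1 me H β H' β' := by
  classical
  set N := m1 - m0 with hNd
  have hlen : ∀ i : Fin N, a ≤ (str (m0 + i)).length := by
    intro i
    rw [le_length_str]
    omega
  obtain ⟨τ, Q, hQ1, hQ2, hQ3⟩ := types (past := H) es β a n hlen hε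
  have hQpos : 0 < Q.card := by
    have : 0 < 2 ^ n := by positivity
    omega
  let β' : Bet := fun e x => if e = es ∧ x.length = n then
    (if idx x ∈ Q then some τ else none) else β e x
  obtain ⟨ω, w1, w2, w3⟩ := exists_sample β' es β J me τ Q hQpos hH h5 hpoly hN hm hQ3
  have hV0 : ∀ e, V e β' m0 (Hs τ H ω) m0 = V e β' m0 H m0 := fun e => V_congr (Hlt_Hs ω)
  have hsame : ∀ e x, ¬ (e = es ∧ x.length = n) → β' e x = β e x := by
    intro e x h
    simp only [β', if_neg h]
  have hβ' : ∀ i ∈ Finset.Ico (2 ^ n - 1) (2 ^ (n + 1) - 1), β' es (str i) =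
      if i ∈ Q then some τ else none := by
    intro i hi
    simp only [β']
    rw [if_pos ⟨trivial, level_length hi⟩, idx_str]
  have hbet : betPl β' es n = Q := by
    ext i
    rw [betPl, Finset.mem_filter]
    constructor
    · rintro ⟨hi, h⟩
      rw [hβ' i hi] at h
      by_contra hc
      rw [if_neg hc] at h
      exact h rfl
    · intro hi
      refine ⟨hQ1 hi, ?_⟩
      rw [hβ' i (hQ1 hi), if_pos hi]
      simp
  have herr : errPl β' {x | Ac es β' x (Hs τ H ω)} es n = errs es β τ Q (Hs τ H ω) := by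
    ext i
    rw [errPl, errs, Finset.mem_filter, Finset.mem_filter]
    have hac : ∀ i ∈ Finset.Ico (2 ^ n - 1) (2 ^ (n + 1) - 1),
        (Ac es β' (str i) (Hs τ H ω) ↔ Ac es β (str i) (Hs τ H ω)) := by
      intro i hi
      refine Ac_congr_bet fun e' i' hi' => ?_
      rw [level_length hi] at hi'
      refine hsame e' _ ?_
      rintro ⟨-, h2⟩
      have h3 : (str i').length < n := by
        rw [length_str_lt]
        have : 1 ≤ 2 ^ n := Nat.one_le_two_pow
        omega
      omega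
    constructor
    · rintro ⟨hi, h⟩
      rw [hβ' i hi] at h
      by_cases hc : i ∈ Q
      · rw [if_pos hc] at h
        refine ⟨hc, ?_⟩
        rw [Option.some.injEq] at h
        have h4 : decide (str i ∈ {x | Ac es β' x (Hs τ H ω)}) =
            decide (Ac es β (str i) (Hs τ H ω)) := by
          rw [decide_eq_decide]
          exact hac i hi
        rw [h4] at h
        have hb : ∀ b t : Bool, t = !b → b = !t := by decide
        exact hb _ _ h
      · rw [if_neg hc] at h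
        exact absurd h (by simp)
    · rintro ⟨hi, h⟩
      refine ⟨hQ1 hi, ?_⟩
      rw [hβ' i (hQ1 hi), if_pos hi, Option.some.injEq]
      have h4 : decide (str i ∈ {x | Ac es β' x (Hs τ H ω)}) =
          decide (Ac es β (str i) (Hs τ H ω)) := by
        rw [decide_eq_decide]
        exact hac i (hQ1 hi)
      rw [h4, h, Bool.not_not]
  refine ⟨Hs τ H ω, β', ?_, ?_, hsame, ?_, ?_, ?_, ?_, ?_⟩
  · rw [Hlt_Hs]
    ext q
    simp only [Hlt, Set.mem_ofPred_eq]
    exact ⟨fun h => h.1, fun h => ⟨h, hH q h⟩⟩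
  · rintro q ((h | h) | h)
    · exact lt_of_lt_of_le (hH q h) hm01
    · obtain ⟨i, -, h2⟩ := idx_A1 h
      have := i.2
      omega
    · obtain ⟨i, -, h2⟩ := idx_A1 h.2
      have := i.2
      omega
  · rw [hbet]
    exact hQ2
  · rw [hbet, herr]
    exact w1
  · intro e he m h1 h2 hcon
    apply w3 e he
    rw [badH, Finset.mem_filter]
    refine ⟨Finset.mem_univ _, ⟨m - m0, by omega⟩, ?_⟩
    have : m0 + (m - m0) = m := by omega
    simp only [this]
    exact hcon
  · intro e he m h1 h2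
    by_contra hcon
    rw [not_le, hV0] at hcon
    apply w2 e he
    rw [badV, Finset.mem_filter]
    refine ⟨Finset.mem_univ _, Or.inl ⟨m - m0, by omega, by omega, ?_⟩⟩
    have : m0 + (m - m0) = m := by omega
    rw [this]
    exact hcon
  · intro e he
    by_contra hcon
    rw [not_le, hV0] at hcon
    apply w2 e he
    rw [badV, Finset.mem_filter]
    refine ⟨Finset.mem_univ _, Or.inr ?_⟩
    have : m0 + N = m1 := by omega
    rw [this]
    exact hcon

end Pool.Agent.H610R2.Dim
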