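import Pool.Agent.H578R2.Use

/-!
Resource-bounded dimension relative to an oracle: definitions.
-/

namespace Pool.Agent.H610R2.Dim

open Pool.Agent.H578R2

/-- The `n`-th string in the standard length-lexicographic enumeration `λ, 0, 1, 00, 01, …`
(`false` is `0`, `true` is `1`): the binary expansion of `n + 1`, most significant bit first,
without its leading `1`. -/
def str (n : ℕ) : List Bool := (Nat.bits (n + 1)).reverse.tail

open Classical in
/-- The prefix of length `n` of the characteristic sequence of the language `L`. -/
noncomputable def chi (L : Set (List Bool)) (n : ℕ) : List Bool :=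
  (List.range n).map fun i => decide (str i ∈ L)

/-- `d` is an `s`-gale. -/
structure IsGale (s : ℝ) (d : List Bool → ℝ) : Prop where
  nonneg : ∀ w, 0 ≤ d w
  avg : ∀ w, d w = (2 : ℝ) ^ (-s) * (d (w ++ [false]) + d (w ++ [true]))

/-- The gale `d` succeeds on `L`: the upper limit of its values on the prefixes of the
characteristic sequence of `L` is infinite. -/
def Succeeds (d : List Bool → ℝ) (L : Set (List Bool)) : Prop :=
  ∀ C : ℝ, ∃ᶠ n in Filter.atTop, C < d (chi L n)

/-- The input string `1^r 0 w` which presents the pair `(r, w)` to a machine. -/
def inp (r : ℕ) (w : List Bool) : List Bool := List.replicate r true ++ false :: w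

/-- The value of a binary numeral, least significant bit first. -/
def bval : List Bool → ℕ
  | [] => 0
  | b :: l => b.toNat + 2 * bval l

/-- The rational number written on the stacks: numerator (binary, least significant bit on top)
on stack `1`, denominator on stack `2`, and a minus sign if the top bit of stack `3` is `1`. -/
def outQ (c : ℕ → List Bool) : ℚ :=
  (if (c 3).head? = some true then -1 else 1) * ((bval (c 1) : ℚ) / (bval (c 2) : ℚ))

/-- The function `d` is `p^A`-computable: a deterministic machine with oracle `A`, on input
`(r, w)`, halts within polynomially many steps in the length `r + |w| + 1` of the input and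
writes a rational number which differs from `d w` by at most `2 ^ (-r)`. -/
def PComp (A : Set (List Bool)) (d : List Bool → ℝ) : Prop :=
  ∃ (M : Machine) (k : ℕ), M.Det ∧ ∀ (r : ℕ) (w : List Bool) (g : ℕ → Bool),
    M.Halted (M.run A ((inp r w).length ^ k + k) g (M.init (inp r w))) ∧
    |((outQ (M.run A ((inp r w).length ^ k + k) g (M.init (inp r w))).2 : ℚ) : ℝ) - d w| ≤
      (1 / 2 : ℝ) ^ r

/-- The `p^A`-dimension of the class `C` of languages. -/
noncomputable def dimP (A : Set (List Bool)) (C : Set (Set (List Bool))) : ℝ :=
  sInf {s : ℝ | 0 ≤ s ∧ ∃ d : List Bool → ℝ, IsGale s d ∧ PComp A d ∧ ∀ L ∈ C, Succeeds d L}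

end Pool.Agent.H610R2.Dim
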