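import Pool.Agent.H610R2.Dim.MachC

/-!
The machine which computes the gale by asking for the bits of its value.
-/

namespace Pool.Agent.H610R2.Dim

open Pool.Agent.H578R2

inductive DQ : Type
  | s | a | a1 | a2 (b : Bool) | g0 | g1 | g2 | g3 (b : Bool) | g4 (b : Bool) | g5 (b : Bool) | g6
  | u0 | u1 | u2 | u3 (b : Bool) | u4 (b : Bool) | v0 | v1 | v2 (b : Bool) | v3 (b : Bool) | fin
  deriving Fintype

def dact : DQ → Act DQ
  | .s => .push 0 false .a
  | .a => .push 0 false .a1
  | .a1 => .ask 0 .a2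
  | .a2 b => .pop 0 (if b then .u0 else .g0)
  | .g0 => .push 0 false .g1
  | .g1 => .push 0 true .g2
  | .g2 => .ask 0 .g3
  | .g3 b => .pop 0 (.g4 b)
  | .g4 b => .pop 0 (.g5 b)
  | .g5 b => .push 0 b .g6
  | .g6 => .push 0 true .a
  | .u0 => .read 0 (fun o => if o = some true then .u1 else .fin)
  | .u1 => .pop 0 .u2
  | .u2 => .read 0 (fun o => .u3 (o.getD false))
  | .u3 b => .pop 0 (.u4 b)
  | .u4 b => .push 2 b .v0
  | .v0 => .pop 0 .v1
  | .v1 => .read 0 (fun o => .v2 (o.getD false))
  | .v2 b => .pop 0 (.v3 b)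
  | .v3 b => .push 1 b .u0
  | .fin => .halt true

def DM : Machine := ⟨DQ, inferInstance, .s, dact⟩

theorem DM_det : DM.Det := by
  intro q f h
  have h : dact q = .guess f := h
  cases q <;> simp [dact] at h

def dc (q : DQ) (s s1 s2 : List Bool) : DM.Config := (q, st3 s s1 s2)

theorem dc_init (x : List Bool) : DM.init x = dc .s x [] [] := by
  rw [Machine.init, dc]
  congr 1
  funext k
  simp only [st3]
  split
  · rfl
  · simp

section steps

variable (A : Set (List Bool)) (g : Bool) (s s1 s2 : List Bool)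

theorem ds_s : DM.step A g (dc .s s s1 s2) = dc .a (false :: s) s1 s2 := by
  change (_, Function.update (st3 s s1 s2) 0 _) = _
  rw [update_st3_zero]; rfl

theorem ds_a : DM.step A g (dc .a s s1 s2) = dc .a1 (false :: s) s1 s2 := by
  change (_, Function.update (st3 s s1 s2) 0 _) = _
  rw [update_st3_zero]; rfl

theorem ds_a1 : DM.step A g (dc .a1 s s1 s2) = dc (.a2 (bt A s)) s s1 s2 := rfl

theorem ds_a2 (b : Bool) : DM.step A g (dc (.a2 b) s s1 s2) =
    dc (if b then .u0 else .g0) s.tail s1 s2 := by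
  change (_, Function.update (st3 s s1 s2) 0 _) = _
  rw [update_st3_zero]; rfl

theorem ds_g0 : DM.step A g (dc .g0 s s1 s2) = dc .g1 (false :: s) s1 s2 := by
  change (_, Function.update (st3 s s1 s2) 0 _) = _
  rw [update_st3_zero]; rfl

theorem ds_g1 : DM.step A g (dc .g1 s s1 s2) = dc .g2 (true :: s) s1 s2 := by
  change (_, Function.update (st3 s s1 s2) 0 _) = _
  rw [update_st3_zero]; rfl

theorem ds_g2 : DM.step A g (dc .g2 s s1 s2) = dc (.g3 (bt A s)) s s1 s2 := rfl

theorem ds_g3 (b : Bool) : DM.step A g (dc (.g3 b) s s1 s2) = dc (.g4 b) s.tail s1 s2 := by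
  change (_, Function.update (st3 s s1 s2) 0 _) = _
  rw [update_st3_zero]; rfl

theorem ds_g4 (b : Bool) : DM.step A g (dc (.g4 b) s s1 s2) = dc (.g5 b) s.tail s1 s2 := by
  change (_, Function.update (st3 s s1 s2) 0 _) = _
  rw [update_st3_zero]; rfl

theorem ds_g5 (b : Bool) : DM.step A g (dc (.g5 b) s s1 s2) = dc .g6 (b :: s) s1 s2 := by
  change (_, Function.update (st3 s s1 s2) 0 _) = _
  rw [update_st3_zero]; rfl

theorem ds_g6 : DM.step A g (dc .g6 s s1 s2) = dc .a (true :: s) s1 s2 := by
  change (_, Function.update (st3 s s1 s2) 0 _) = _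
  rw [update_st3_zero]; rfl

theorem ds_u0 : DM.step A g (dc .u0 s s1 s2) =
    dc (if s.head? = some true then .u1 else .fin) s s1 s2 := rfl

theorem ds_u1 : DM.step A g (dc .u1 s s1 s2) = dc .u2 s.tail s1 s2 := by
  change (_, Function.update (st3 s s1 s2) 0 _) = _
  rw [update_st3_zero]; rfl

theorem ds_u2 : DM.step A g (dc .u2 s s1 s2) = dc (.u3 (s.head?.getD false)) s s1 s2 := rfl

theorem ds_u3 (b : Bool) : DM.step A g (dc (.u3 b) s s1 s2) = dc (.u4 b) s.tail s1 s2 := by
  change (_, Function.update (st3 s s1 s2) 0 _) = _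
  rw [update_st3_zero]; rfl

theorem ds_u4 (b : Bool) : DM.step A g (dc (.u4 b) s s1 s2) = dc .v0 s s1 (b :: s2) := by
  change (_, Function.update (st3 s s1 s2) 2 _) = _
  rw [update_st3_two]; rfl

theorem ds_v0 : DM.step A g (dc .v0 s s1 s2) = dc .v1 s.tail s1 s2 := by
  change (_, Function.update (st3 s s1 s2) 0 _) = _
  rw [update_st3_zero]; rfl

theorem ds_v1 : DM.step A g (dc .v1 s s1 s2) = dc (.v2 (s.head?.getD false)) s s1 s2 := rfl

theorem ds_v2 (b : Bool) : DM.step A g (dc (.v2 b) s s1 s2) = dc (.v3 b) s.tail s1 s2 := by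
  change (_, Function.update (st3 s s1 s2) 0 _) = _
  rw [update_st3_zero]; rfl

theorem ds_v3 (b : Bool) : DM.step A g (dc (.v3 b) s s1 s2) = dc .u0 s (b :: s1) s2 := by
  change (_, Function.update (st3 s s1 s2) 1 _) = _
  rw [update_st3_one]; rfl

end steps

theorem dm_start (A : Set (List Bool)) (w : ℕ → Bool) (x : List Bool) :
    DM.run A 1 w (dc .s x [] []) = dc .a (enc [] x) [] [] := by
  rw [Machine.run_one, ds_s]
  rfl

theorem dm_round (A : Set (List Bool)) (w : ℕ → Bool) (y x : List Bool) (h : sc y x ∉ A) :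
    DM.run A 10 w (dc .a (enc y x) [] []) = dc .a (enc (bt A (tc y x) :: y) x) [] [] := by
  have h1 : bt A (false :: enc y x) = false := bt_false.2 h
  simp only [Machine.run, ds_a, ds_a1, h1, ds_a2, Bool.false_eq_true, if_false, List.tail_cons,
    ds_g0, ds_g1, ds_g2, ds_g3, ds_g4, ds_g5, ds_g6]
  rfl

theorem dm_stop (A : Set (List Bool)) (w : ℕ → Bool) (y x : List Bool) (h : sc y x ∈ A) :
    DM.run A 3 w (dc .a (enc y x) [] []) = dc .u0 (enc y x) [] [] := by
  have h1 : bt A (false :: enc y x) = true := bt_true.2 h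
  simp only [Machine.run, ds_a, ds_a1, h1, ds_a2, if_true, List.tail_cons]

theorem dm_unzip (A : Set (List Bool)) (w : ℕ → Bool) (b b' : Bool) (y x s1 s2 : List Bool) :
    DM.run A 9 w (dc .u0 (enc (b :: b' :: y) x) s1 s2) = dc .u0 (enc y x) (b' :: s1) (b :: s2) := by
  simp only [Machine.run, ds_u0, enc, List.head?_cons, if_true, ds_u1, List.tail_cons, ds_u2,
    ds_u3, ds_u4, ds_v0, ds_v1, ds_v2, ds_v3, Option.getD_some]

theorem dm_end (A : Set (List Bool)) (w : ℕ → Bool) (x s1 s2 : List Bool) :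
    DM.run A 1 w (dc .u0 (enc [] x) s1 s2) = dc .fin (enc [] x) s1 s2 := by
  simp only [Machine.run, ds_u0, enc, List.head?_cons, Option.some.injEq, Bool.false_eq_true,
    if_false]

/-- the answers, newest first -/
noncomputable def an (β : Bet) (x : List Bool) : ℕ → List Bool
  | 0 => []
  | j + 1 => bt {x | TB β j x} x :: an β x j

theorem an_length (β : Bet) (x : List Bool) : ∀ j, (an β x j).length = j
  | 0 => rfl
  | j + 1 => by rw [an, List.length_cons, an_length β x j]

theorem dm_loop (H : Set (List Bool × List Bool)) (β : Bet) (w : ℕ → Bool) (x : List Bool) :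
    ∀ j ≤ 2 * x.length ^ 2, DM.run (orc H β) (1 + 10 * j) w (dc .s x [] []) =
      dc .a (enc (an β x j) x) [] []
  | 0, _ => dm_start _ _ _
  | j + 1, hj => by
      have e : 1 + 10 * (j + 1) = (1 + 10 * j) + 10 := by ring
      rw [e, Machine.run_add, dm_loop H β w x j (by omega), dm_round]
      · rw [an]
        have : bt (orc H β) (tc (an β x j) x) = bt {x | TB β j x} x := by
          rw [Bool.eq_iff_iff, bt_true, bt_true, tc_mem, an_length]
          rfl
        rw [this]
      · rw [sc_mem, an_length]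
        omega

/-- every second answer -/
noncomputable def half (β : Bet) (x : List Bool) (o : ℕ) (K : ℕ) : List Bool :=
  (List.range K).map fun i => bt {x | TB β (2 * i + o) x} x

theorem dm_unzips (H : Set (List Bool × List Bool)) (β : Bet) (x : List Bool) (K : ℕ) :
    ∀ (j : ℕ) (_ : j ≤ K) (w : ℕ → Bool) (s1 s2 : List Bool),
    DM.run (orc H β) (9 * j) w (dc .u0 (enc (an β x (2 * j)) x) s1 s2) =
      dc .u0 (enc [] x) (half β x 0 j ++ s1) (half β x 1 j ++ s2)
  | 0, _, w, s1, s2 => by simp [Machine.run, half, an]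
  | j + 1, hj, w, s1, s2 => by
      have e : 9 * (j + 1) = 9 + 9 * j := by ring
      have e2 : 2 * (j + 1) = (2 * j + 1) + 1 := by ring
      rw [e, Machine.run_add, e2, an, an, dm_unzip, dm_unzips H β x K j (by omega)]
      congr 1
      · simp [half, List.range_succ]
      · simp [half, List.range_succ]

theorem dm_run (H : Set (List Bool × List Bool)) (β : Bet) (w : ℕ → Bool) (x : List Bool) :
    DM.run (orc H β) (1 + 10 * (2 * x.length ^ 2) + 3 + 9 * x.length ^ 2 + 1) w (DM.init x) =
      dc .fin (enc [] x) (half β x 0 (x.length ^ 2)) (half β x 1 (x.length ^ 2)) := by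
  rw [dc_init, Machine.run_add, Machine.run_add, Machine.run_add, dm_loop _ _ _ _ _ le_rfl,
    dm_stop, dm_unzips H β x (x.length ^ 2) _ le_rfl, dm_end]
  · simp
  · rw [sc_mem, an_length]

theorem bval_testBit : ∀ (K n : ℕ), n < 2 ^ K → bval ((List.range K).map n.testBit) = n
  | 0, n, h => by
      have : n = 0 := by simpa using h
      subst this
      simp [bval]
  | K + 1, n, h => by
      rw [List.range_succ_eq_map, List.map_cons, List.map_map, bval]
      have h1 : (n.testBit ∘ Nat.succ) = (n / 2).testBit := by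
        funext i
        simp [Nat.testBit_succ]
      rw [h1, bval_testBit K (n / 2) (by rw [pow_succ] at h; omega), Nat.testBit_zero]
      rcases Nat.mod_two_eq_zero_or_one n with h2 | h2
      · simp [h2]; omega
      · simp [h2]; omega

theorem half_zero (β : Bet) (r : ℕ) (w : List Bool) (K : ℕ) :
    half β (inp r w) 0 K = (List.range K).map (num β r w).testBit := by
  unfold half
  refine List.map_congr_left fun i _ => ?_
  rw [Bool.eq_iff_iff, bt_true, Set.mem_ofPred_eq, TB_inp]
  have h1 : (2 * i + 0) % 2 = 0 := by omega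
  have h2 : (2 * i + 0) / 2 = i := by omega
  rw [h1, h2]
  simp

theorem half_one (β : Bet) (r : ℕ) (w : List Bool) (K : ℕ) :
    half β (inp r w) 1 K = (List.range K).map (2 ^ r).testBit := by
  unfold half
  refine List.map_congr_left fun i _ => ?_
  rw [Bool.eq_iff_iff, bt_true, Set.mem_ofPred_eq, TB_inp]
  have h1 : (2 * i + 1) % 2 = 1 := by omega
  have h2 : (2 * i + 1) / 2 = i := by omega
  rw [h1, h2, Nat.testBit_two_pow, decide_eq_true_iff]
  constructor
  · rintro (⟨h, -⟩ | ⟨-, h⟩)
    · omega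
    · exact h.symm
  · intro h
    exact Or.inr ⟨rfl, h.symm⟩

theorem DD_pcomp (H : Set (List Bool × List Bool)) (β : Bet) : PComp (orc H β) (DD β) := by
  have hpb : PB (fun n => 1 + 10 * (2 * n ^ 2) + 3 + 9 * n ^ 2 + 1) :=
    ((((PB.const 1).add ((PB.const 10).mul ((PB.const 2).mul (PB.id.pow 2)))).add (PB.const 3)).add
      ((PB.const 9).mul (PB.id.pow 2))).add (PB.const 1)
  obtain ⟨k, hk⟩ := pb_exists_exp hpb
  refine ⟨DM, k, DM_det, fun r w g => ?_⟩
  have hrun : DM.run (orc H β) ((inp r w).length ^ k + k) g (DM.init (inp r w)) =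
      dc .fin (enc [] (inp r w)) (half β (inp r w) 0 ((inp r w).length ^ 2))
        (half β (inp r w) 1 ((inp r w).length ^ 2)) := by
    rw [DM.run_of_le (orc H β) (hk (inp r w).length) g, dm_run]
    rw [dm_run]
    exact ⟨_, rfl⟩
  have hK : r + w.length + 1 ≤ (inp r w).length ^ 2 := by
    rw [inp_length]
    nlinarith
  have hq : outQ (dc .fin (enc [] (inp r w)) (half β (inp r w) 0 ((inp r w).length ^ 2))
        (half β (inp r w) 1 ((inp r w).length ^ 2))).2 = (num β r w : ℚ) / 2 ^ r := by
    have h3 : (dc DQ.fin (enc [] (inp r w)) (half β (inp r w) 0 ((inp r w).length ^ 2))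
        (half β (inp r w) 1 ((inp r w).length ^ 2))).2 3 = [] := rfl
    have h1 : (dc DQ.fin (enc [] (inp r w)) (half β (inp r w) 0 ((inp r w).length ^ 2))
        (half β (inp r w) 1 ((inp r w).length ^ 2))).2 1 =
        half β (inp r w) 0 ((inp r w).length ^ 2) := rfl
    have h2 : (dc DQ.fin (enc [] (inp r w)) (half β (inp r w) 0 ((inp r w).length ^ 2))
        (half β (inp r w) 1 ((inp r w).length ^ 2))).2 2 =
        half β (inp r w) 1 ((inp r w).length ^ 2) := rfl
    rw [outQ, h1, h2, h3, half_zero, half_one, bval_testBit, bval_testBit]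
    · simp
    · exact Nat.pow_lt_pow_right (by norm_num) (by omega)
    · exact lt_of_lt_of_le (num_lt _ _ _) (Nat.pow_le_pow_right (by norm_num) hK)
  constructor
  · rw [hrun]
    exact ⟨_, rfl⟩
  · rw [hrun, hq]
    push_cast
    exact num_close β r w

end Pool.Agent.H610R2.Dim
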