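import Pool.Agent.H610R2.Dim.Params
import Pool.Agent.H610R2.Dim.MachD

/-!
The construction of the oracle.
-/

namespace Pool.Agent.H610R2.Dim

open Pool.Agent.H578R2

/-- all the data of the construction -/
structure Chain where
  a : ℕ → ℕ
  ok : ∀ j, Ok j (a j)
  lt : ∀ j, a j ^ 2 + tb (es j) (a j ^ 2) < a (j + 1)
  H : ℕ → HP
  β : ℕ → Bet
  β0 : ∀ e x, β 0 e x = none
  bd : ∀ j, ∀ q ∈ H j, idx q.1 < 2 ^ a j - 1
  step : ∀ j, Step j (es j) (a j ^ 2) (2 ^ a j - 1) (2 ^ a (j + 1) - 1) (fun e => 2 ^ a e - 1)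
    (H j) (β j) (H (j + 1)) (β (j + 1))

theorem exists_chain : Nonempty Chain := by
  obtain ⟨a, hok, hlt⟩ := exists_lengths
  have hmono : ∀ j, a j < a (j + 1) := by
    intro j
    have h1 := hlt j
    have h2 : a j ≤ a j ^ 2 := Nat.le_self_pow (by norm_num) _
    omega
  have key : ∀ (j : ℕ) (S : {p : HP × Bet // ∀ q ∈ p.1, idx q.1 < 2 ^ a j - 1}),
      ∃ S' : {p : HP × Bet // ∀ q ∈ p.1, idx q.1 < 2 ^ a (j + 1) - 1},
        Step j (es j) (a j ^ 2) (2 ^ a j - 1) (2 ^ a (j + 1) - 1) (fun e => 2 ^ a e - 1)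
          S.1.1 S.1.2 S'.1.1 S'.1.2 := by
    rintro j ⟨⟨H, β⟩, hH⟩
    have hpow : 2 * 2 ^ a j ≤ 2 ^ a (j + 1) := by
      rw [← pow_succ']
      exact Nat.pow_le_pow_right (by norm_num) (hmono j)
    have h1 : 1 ≤ 2 ^ a j := Nat.one_le_two_pow
    obtain ⟨H', β', h⟩ := exists_step j (es j) (a j ^ 2) (a j) (2 ^ a j - 1) (2 ^ a (j + 1) - 1)
      (fun e => 2 ^ a e - 1) H β rfl (by omega) (hok j).k1 hH (hok j).k2 (by
        intro e he
        refine le_trans ?_ ((hok j).k3 e he)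
        refine mul_le_mul_of_nonneg_left ?_ (by norm_num)
        exact pow_le_pow_of_le_one (by norm_num) (by norm_num) (by omega))
      (by
        intro e he
        refine le_trans (le_of_eq ?_) ((hok j).k4 e he)
        congr 1
        rw [Nat.cast_sub h1]
        push_cast
        ring) (hok j).k5 (hok j).k6
    exact ⟨⟨(H', β'), h.bd⟩, h⟩
  choose f hf using key
  let S : ∀ j, {p : HP × Bet // ∀ q ∈ p.1, idx q.1 < 2 ^ a j - 1} := fun j =>
    Nat.rec ⟨(∅, fun _ _ => none), fun q hq => absurd hq (Set.notMem_empty q)⟩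
      (fun j S => f j S) j
  exact ⟨⟨a, hok, hlt, fun j => (S j).1.1, fun j => (S j).1.2, fun _ _ => rfl, fun j => (S j).2,
    fun j => hf j (S j)⟩⟩

namespace Chain

variable (K : Chain)

theorem a_lt (j : ℕ) : K.a j < K.a (j + 1) := by
  have h1 := K.lt j
  have h2 : K.a j ≤ K.a j ^ 2 := Nat.le_self_pow (by norm_num) _
  omega

theorem a_mono : StrictMono K.a := strictMono_nat_of_lt_succ K.a_lt

theorem le_a (j : ℕ) : j ≤ K.a j := K.a_mono.id_le j

theorem sq_mono {j k : ℕ} (h : j ≤ k) : K.a j ^ 2 ≤ K.a k ^ 2 :=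
  Nat.pow_le_pow_left (K.a_mono.monotone h) 2

theorem le_sq (j : ℕ) : j ≤ K.a j ^ 2 :=
  (K.le_a j).trans (Nat.le_self_pow (by norm_num) _)

/-- the start of block `j` -/
def m0 (j : ℕ) : ℕ := 2 ^ K.a j - 1

theorem m0_lt {j k : ℕ} (h : j < k) : K.m0 j < K.m0 k := by
  unfold m0
  have h1 : 2 ^ K.a j < 2 ^ K.a k := Nat.pow_lt_pow_right (by norm_num) (K.a_mono h)
  have h2 : 1 ≤ 2 ^ K.a j := Nat.one_le_two_pow
  omega

theorem m0_le {j k : ℕ} (h : j ≤ k) : K.m0 j ≤ K.m0 k := by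
  rcases h.eq_or_lt with h | h
  · rw [h]
  · exact (K.m0_lt h).le

theorem Hlt_H {j k : ℕ} (h : j ≤ k) : Hlt (K.H k) (K.m0 j) = K.H j := by
  induction k, h using Nat.le_induction with
  | base =>
    ext q
    simp only [Hlt, Set.mem_ofPred_eq]
    exact ⟨fun h => h.1, fun h => ⟨h, K.bd j q h⟩⟩
  | succ k hk ih =>
    rw [← ih, ← Hlt_Hlt (K.m0_le hk)]
    congr 1
    exact (K.step k).ext

/-- the hidden pairs -/
def Hw : HP := {q | ∃ j, q ∈ K.H j}

/-- the betting scheme -/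
def βw : Bet := fun e x => K.β (x.length + 1) e x

theorem Hlt_Hw (j : ℕ) : Hlt K.Hw (K.m0 j) = K.H j := by
  ext q
  constructor
  · rintro ⟨⟨k, hk⟩, hq⟩
    rcases le_total k j with h | h
    · rw [← K.Hlt_H h] at hk
      exact hk.1
    · rw [← K.Hlt_H h]
      exact ⟨hk, hq⟩
  · intro hq
    exact ⟨⟨j, hq⟩, K.bd j q hq⟩

theorem β_eq {j k : ℕ} (h : j ≤ k) {e : ℕ} {x : List Bool} (hx : x.length < K.a j ^ 2) :
    K.β k e x = K.β j e x := by
  induction k, h using Nat.le_induction with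
  | base => rfl
  | succ k hk ih =>
    rw [← ih]
    refine (K.step k).same e x ?_
    rintro ⟨-, h2⟩
    have := K.sq_mono hk
    omega

theorem βw_eq {j e : ℕ} {x : List Bool} (hx : x.length < K.a j ^ 2) : K.βw e x = K.β j e x := by
  unfold βw
  rcases le_total j (x.length + 1) with h | h
  · exact K.β_eq h hx
  · refine (K.β_eq h ?_).symm
    have := K.le_sq (x.length + 1)
    omega

theorem βw_none {e : ℕ} {x : List Bool} (h : ∀ j, ¬ (e = es j ∧ x.length = K.a j ^ 2)) :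
    K.βw e x = none := by
  have key : ∀ k, K.β k e x = none := by
    intro k
    induction k with
    | zero => exact K.β0 e x
    | succ k ih => rw [(K.step k).same e x (h k), ih]
  exact key _

/-- the oracle -/
def A : Set (List Bool) := orc K.Hw K.βw

theorem Ac_iff {j : ℕ} {x : List Bool} (hx : x.length = K.a j ^ 2) :
    Ac (es j) K.βw x K.Hw ↔ Ac (es j) (K.β (j + 1)) x (K.H (j + 1)) := by
  unfold Ac
  refine exists_congr fun w => ?_
  obtain ⟨Q, h1, h2, h3⟩ := Acc.local (es j) x w (orc (K.H (j + 1)) (K.β (j + 1)))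
  refine h3 _ fun s hs => ?_
  have hlt := K.lt j
  have hN := h2 s hs
  rw [hx] at hN
  refine orc_congr hN ?_ ?_
  · intro e i hi
    refine K.βw_eq ?_
    have h4 : (str i).length ≤ i := by
      by_contra hc
      have h5 : i + 1 ≤ (str i).length := by omega
      rw [le_length_str] at h5
      have h6 : i + 1 < 2 ^ (i + 1) := Nat.lt_two_pow_self
      omega
    have h5 : K.a (j + 1) ≤ K.a (j + 1) ^ 2 := Nat.le_self_pow (by norm_num) _
    omega
  · intro y x' hsx
    rw [← K.Hlt_Hw (j + 1)]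
    have h4 : idx x' < K.m0 (j + 1) := by
      have h5 : x'.length < K.a (j + 1) := by
        have := hc_length y x'
        rw [← hsx] at this
        omega
      rw [length_lt_iff] at h5
      unfold m0
      omega
    exact ⟨fun h => ⟨h, h4⟩, fun h => h.1⟩

theorem level_eq {j : ℕ} (e : ℕ) : ∀ i ∈ Finset.Ico (2 ^ (K.a j ^ 2) - 1) (2 ^ (K.a j ^ 2 + 1) - 1),
    K.βw e (str i) = K.β (j + 1) e (str i) := by
  intro i hi
  refine K.βw_eq ?_
  rw [level_length hi]
  have h1 := K.lt j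
  have h2 : K.a (j + 1) ≤ K.a (j + 1) ^ 2 := Nat.le_self_pow (by norm_num) _
  omega

theorem bet_eq (j : ℕ) : betPl K.βw (es j) (K.a j ^ 2) = betPl (K.β (j + 1)) (es j) (K.a j ^ 2) := by
  classical
  unfold betPl
  refine Finset.filter_congr fun i hi => ?_
  rw [K.level_eq _ i hi]

theorem err_eq (j : ℕ) : errPl K.βw {x | Ac (es j) K.βw x K.Hw} (es j) (K.a j ^ 2) =
    errPl (K.β (j + 1)) {x | Ac (es j) (K.β (j + 1)) x (K.H (j + 1))} (es j) (K.a j ^ 2) := by
  classical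
  unfold errPl
  refine Finset.filter_congr fun i hi => ?_
  rw [K.level_eq _ i hi]
  have h1 : decide (str i ∈ {x | Ac (es j) K.βw x K.Hw}) =
      decide (str i ∈ {x | Ac (es j) (K.β (j + 1)) x (K.H (j + 1))}) := by
    rw [decide_eq_decide]
    exact K.Ac_iff (level_length hi)
  rw [h1]

theorem succeeds (e : ℕ) : Succeeds (DD K.βw) {x | Ac e K.βw x K.Hw} := by
  classical
  refine DD_succeeds (e := e) (fun n => ?_) (fun N => ?_)
  · by_cases h : ∃ j, e = es j ∧ n = K.a j ^ 2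
    · obtain ⟨j, rfl, rfl⟩ := h
      rw [K.bet_eq, K.err_eq]
      exact (K.step j).err
    · have h1 : betPl K.βw e n = ∅ := by
        unfold betPl
        rw [Finset.filter_eq_empty_iff]
        intro i hi hc
        apply hc
        refine K.βw_none fun j hj => h ⟨j, hj.1, ?_⟩
        rw [← hj.2, level_length hi]
      have h2 : (errPl K.βw {x | Ac e K.βw x K.Hw} e n).card ≤ (betPl K.βw e n).card :=
        Finset.card_le_card (errPl_subset _ _ _ _)
      rw [h1, Finset.card_empty] at h2 ⊢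
      omega
  · have h1 : es (Nat.pair e N) = e := by rw [es, Nat.unpair_pair]
    refine ⟨K.a (Nat.pair e N) ^ 2, (Nat.right_le_pair e N).trans (K.le_sq _), ?_⟩
    have h2 := (K.step (Nat.pair e N)).big
    have h3 := K.bet_eq (Nat.pair e N)
    rw [h1] at h2 h3
    rw [h3]
    exact h2

/-! ### The computations of a gale -/

/-- what is needed for the computations of machine `e` in block `j` -/
theorem small {e j m i : ℕ} (he : e ≤ j) (hm : m ≤ K.m0 (j + 1))
    (hi : i < 2 * m + 2 + tb e (2 * m + 2)) : (str i).length < K.a (j + 1) ^ 2 := by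
  have h1 := (K.ok (j + 1)).k7 e (by omega)
  have h2 : 2 * m + 2 ≤ 2 * 2 ^ K.a (j + 1) + 2 := by
    unfold m0 at hm
    omega
  have h3 := tb_mono e h2
  rw [length_str_lt]
  have h4 : 1 ≤ 2 ^ (K.a (j + 1) ^ 2) := Nat.one_le_two_pow
  omega

end Chain

/-- the computations do not depend on the bets at large places -/
theorem Dv_congr_bet {e m : ℕ} {β β' : Bet} {H : HP}
    (h : ∀ e', ∀ i < 2 * m + 2 + tb e (2 * m + 2), β e' (str i) = β' e' (str i)) :
    Dv e β H m = Dv e β' H m ∧ (∀ b, Dvb e β H m b = Dvb e β' H m b) ∧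
      Qs e β H m = Qs e β' H m := by
  have key : ∀ x : List Bool, x.length ≤ 2 * m + 2 → ∀ s ∈ qs e x (orc (Hlt H m) β'),
      (s ∈ orc (Hlt H m) β ↔ s ∈ orc (Hlt H m) β') := by
    intro x hx s hs
    have h1 := qs_length hs
    have h2 := tb_mono e hx
    exact orc_congr (N := 2 * m + 2 + tb e (2 * m + 2)) (by omega) h (fun _ _ _ => Iff.rfl)
  have l1 : (inp m (chi (LH H) m)).length ≤ 2 * m + 2 := by
    rw [inp_length, chi_length]
    omega
  have l2 : ∀ b, (inp m (chi (LH H) m ++ [b])).length ≤ 2 * m + 2 := by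
    intro b
    rw [inp_length, List.length_append, chi_length, List.length_singleton]
    omega
  refine ⟨?_, fun b => ?_, ?_⟩
  · rw [Dv, Dv, val_congr (key _ l1)]
  · rw [Dvb, Dvb, val_congr (key _ (l2 b))]
  · rw [Qs, Qs, qs_congr (key _ l1), qs_congr (key _ (l2 false)), qs_congr (key _ (l2 true))]

namespace Chain

variable (K : Chain)

/-- the block of a number -/
theorem exists_block {e m : ℕ} (h : K.m0 e ≤ m) : ∃ j, e ≤ j ∧ K.m0 j ≤ m ∧ m < K.m0 (j + 1) := by
  classical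
  have hex : ∃ k, m < K.m0 k := by
    refine ⟨m + 1, ?_⟩
    have h1 := K.le_a (m + 1)
    have h2 : m + 1 < 2 ^ (m + 1) := Nat.lt_two_pow_self
    have h3 : 2 ^ (m + 1) ≤ 2 ^ K.a (m + 1) := Nat.pow_le_pow_right (by norm_num) h1
    unfold m0
    omega
  have h1 := Nat.find_spec hex
  set k := Nat.find hex
  have hk : e < k := by
    by_contra hc
    have := K.m0_le (not_lt.1 hc)
    omega
  refine ⟨k - 1, by omega, ?_, ?_⟩
  · by_contra hc
    have := Nat.find_min' hex (not_le.1 hc)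
    omega
  · have : k - 1 + 1 = k := by omega
    rw [this]
    exact h1

theorem Hlt_eq {j m : ℕ} (hm : m ≤ K.m0 (j + 1)) : Hlt (K.H (j + 1)) m = Hlt K.Hw m := by
  rw [← K.Hlt_Hw (j + 1), Hlt_Hlt hm]

theorem small_bet {e j m : ℕ} (he : e ≤ j) (hm : m ≤ K.m0 (j + 1)) :
    ∀ e', ∀ i < 2 * m + 2 + tb e (2 * m + 2), K.β (j + 1) e' (str i) = K.βw e' (str i) :=
  fun _ _ hi => (K.βw_eq (K.small he hm hi)).symm

/-- the computations agree with those of the oracle -/
theorem agree {e m : ℕ} (h : K.m0 e ≤ m) : ∀ s ∈ Qs e K.βw K.Hw m,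
    (s ∈ K.A ↔ s ∈ orc (Hlt K.Hw m) K.βw) := by
  intro s hs
  refine orc_congr (N := s.length) le_rfl (fun _ _ _ => rfl) fun y x hsx => ?_
  constructor
  · intro hyx
    refine ⟨hyx, ?_⟩
    by_contra hc
    rw [not_lt] at hc
    simp only at hc
    obtain ⟨j, hj1, hj2, hj3⟩ := K.exists_block (h.trans hc)
    apply (K.step j).hit e hj1 (idx x) hj2 hj3
    refine ⟨y, ?_, m, h, hc, ?_⟩
    · rw [str_idx]
      have h1 : (x, y) ∈ Hlt K.Hw (K.m0 (j + 1)) := ⟨hyx, hj3⟩
      rwa [K.Hlt_Hw] at h1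
    · rw [str_idx, ← hsx]
      have hm : m ≤ K.m0 (j + 1) := by omega
      rw [Qs_congr (K.Hlt_eq hm), (Dv_congr_bet (K.small_bet hj1 hm)).2.2]
      exact hs
  · intro hyx
    exact hyx.1

theorem Dv_eq {e m : ℕ} (h : K.m0 e ≤ m) :
    Dv e K.βw K.Hw m = ((val e (inp m (chi (LH K.Hw) m)) K.A : ℚ) : ℝ) := by
  rw [Dv, val_congr (fun s hs => (K.agree h s (Finset.mem_union_left _ hs)))]

theorem Dvb_eq {e m : ℕ} (h : K.m0 e ≤ m) (b : Bool) :
    Dvb e K.βw K.Hw m b = ((val e (inp m (chi (LH K.Hw) m ++ [b])) K.A : ℚ) : ℝ) := by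
  rw [Dvb, val_congr (fun s hs => (K.agree h s (Finset.mem_union_right _ ?_)))]
  cases b
  · exact Finset.mem_union_left _ hs
  · exact Finset.mem_union_right _ hs

theorem not_succeeds {s : ℝ} (hs : (2 : ℝ) ^ s ≤ 5 / 4) {d : List Bool → ℝ} (hg : IsGale s d)
    (hd : PComp K.A d) : ¬ Succeeds d (LH K.Hw) := by
  classical
  obtain ⟨e, he⟩ := hd.exists_index
  -- the approximations along the sequence
  have hD : ∀ m, K.m0 e ≤ m → |Dv e K.βw K.Hw m - d (chi (LH K.Hw) m)| ≤ (1 / 2) ^ m := by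
    intro m hm
    rw [K.Dv_eq hm]
    exact he m _
  have hDb : ∀ m, K.m0 e ≤ m → ∀ b,
      |Dvb e K.βw K.Hw m b - d (chi (LH K.Hw) m ++ [b])| ≤ (1 / 2) ^ m := by
    intro m hm b
    rw [K.Dvb_eq hm]
    exact he m _
  have havg : ∀ w, d (w ++ [false]) + d (w ++ [true]) ≤ 5 / 4 * d w := by
    intro w
    have h1 := hg.avg w
    have h2 : (0 : ℝ) < 2 ^ s := by positivity
    rw [Real.rpow_neg (by norm_num)] at h1
    have h3 : d (w ++ [false]) + d (w ++ [true]) = 2 ^ s * d w := by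
      rw [h1, ← mul_assoc, mul_inv_cancel₀ h2.ne', one_mul]
    rw [h3]
    exact mul_le_mul_of_nonneg_right hs (hg.nonneg w)
  have hRel : ∀ m, K.m0 e ≤ m → Rel e K.βw K.Hw m := by
    intro m hm
    have h1 := abs_le.1 (hD m hm)
    have h2 := fun b => abs_le.1 (hDb m hm b)
    have h3 := havg (chi (LH K.Hw) m)
    have h4 : (0 : ℝ) < (1 / 2) ^ m := by positivity
    refine ⟨?_, fun b => ?_⟩
    · have h5 := h2 false
      have h6 := h2 true
      linarith [h5.2, h6.2, h1.1]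
    · have h5 := h2 b
      have h6 := hg.nonneg (chi (LH K.Hw) m ++ [b])
      linarith [h5.1]
  have hTr : ∀ m, K.m0 e ≤ m → Tr e K.βw K.Hw m := by
    intro m hm
    unfold Tr
    have h1 := abs_le.1 (hD (m + 1) (by omega))
    have h2 := abs_le.1 (hDb m hm (decide (str m ∈ LH K.Hw)))
    rw [chi_succ] at h1
    have h4 : (0 : ℝ) < (1 / 2) ^ m := by positivity
    have h5 : (1 / 2 : ℝ) ^ (m + 1) = (1 / 2) ^ m / 2 := by rw [pow_succ]; ring
    rw [h5] at h1
    linarith [h1.2, h2.1]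
  -- the values in a block
  set U : ℕ → ℝ := fun m => Dv e K.βw K.Hw m + (1 / 2) ^ m with hU
  have hUd : ∀ m, K.m0 e ≤ m → d (chi (LH K.Hw) m) ≤ U m := by
    intro m hm
    have h1 := abs_le.1 (hD m hm)
    simp only [hU]
    linarith [h1.1]
  have hU0 : ∀ m, K.m0 e ≤ m → 0 ≤ U m := fun m hm => (hg.nonneg _).trans (hUd m hm)
  have hV : ∀ j, e ≤ j → ∀ m, K.m0 j ≤ m → m ≤ K.m0 (j + 1) →
      V e (K.β (j + 1)) (K.m0 j) (K.H (j + 1)) m = U m := by
    intro j hj m hm1 hm2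
    have hej := K.m0_le hj
    have hDv : ∀ m', m' ≤ K.m0 (j + 1) → Dv e (K.β (j + 1)) (K.H (j + 1)) m' =
        Dv e K.βw K.Hw m' := by
      intro m' hm'
      rw [Dv_congr (K.Hlt_eq hm'), (Dv_congr_bet (K.small_bet hj hm')).1]
    have hDvb : ∀ m', m' ≤ K.m0 (j + 1) → ∀ b, Dvb e (K.β (j + 1)) (K.H (j + 1)) m' b =
        Dvb e K.βw K.Hw m' b := by
      intro m' hm' b
      rw [Dvb_congr (K.Hlt_eq hm'), (Dv_congr_bet (K.small_bet hj hm')).2.1]
    have hGd : Gd e (K.β (j + 1)) (K.m0 j) (K.H (j + 1)) m := by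
      intro m' h1 h2
      constructor
      · unfold Rel
        rw [hDv m' (by omega), hDvb m' (by omega), hDvb m' (by omega)]
        refine ⟨(hRel m' (by omega)).1, fun b => ?_⟩
        rw [hDvb m' (by omega)]
        exact (hRel m' (by omega)).2 b
      · unfold Tr
        have h3 : decide (str m' ∈ LH (K.H (j + 1))) = decide (str m' ∈ LH K.Hw) := by
          rw [decide_eq_decide]
          exact LH_mem_congr (K.Hlt_eq (by omega))
        rw [hDv (m' + 1) (by omega), hDvb m' (by omega), h3]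
        exact hTr m' (by omega)
    unfold V
    rw [hDv m hm2, if_pos ⟨hGd, hU0 m (by omega)⟩]
  have hb1 : ∀ j, e ≤ j → ∀ m, K.m0 j < m → m ≤ K.m0 (j + 1) → U m ≤ CC e * (U (K.m0 j) + 1) := by
    intro j hj m h1 h2
    have h3 := (K.step j).val e hj m h1 h2
    have h4 := hV j hj m h1.le h2
    have h5 := hV j hj (K.m0 j) le_rfl (K.m0_le (Nat.le_succ j))
    unfold m0 at h3 h4 h5 ⊢
    rw [h4, h5] at h3
    exact h3
  have hb2 : ∀ j, e ≤ j → U (K.m0 (j + 1)) ≤ (U (K.m0 j) + 1) / 2 := by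
    intro j hj
    have h3 := (K.step j).fin e hj
    have h4 := hV j hj (K.m0 (j + 1)) (K.m0_le (Nat.le_succ j)) le_rfl
    have h5 := hV j hj (K.m0 j) le_rfl (K.m0_le (Nat.le_succ j))
    unfold m0 at h3 h4 h5 ⊢
    rw [h4, h5] at h3
    exact h3
  set B := max (U (K.m0 e)) 1 with hB
  have hb3 : ∀ j, e ≤ j → U (K.m0 j) ≤ B := by
    intro j hj
    induction j, hj using Nat.le_induction with
    | base => exact le_max_left _ _
    | succ j hj ih =>
      have h1 := hb2 j hj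
      have h2 : 1 ≤ B := le_max_right _ _
      linarith
  intro hsuc
  have h1 := hsuc (CC e * (B + 1))
  rw [Filter.frequently_atTop] at h1
  obtain ⟨m, hm, hlt⟩ := h1 (K.m0 e + 1)
  obtain ⟨j, hj1, hj2, hj3⟩ := K.exists_block (e := e) (m := m - 1) (by omega)
  have h2 := hb1 j hj1 m (by omega) (by omega)
  have h3 := hb3 j hj1
  have h4 : CC e * (U (K.m0 j) + 1) ≤ CC e * (B + 1) :=
    mul_le_mul_of_nonneg_left (by linarith) (CC_pos e).le
  have h5 := hUd m (by omega)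
  linarith

end Chain

theorem main : ∃ A : Set (List Bool), 0 < dimP A {L | InNP A L} ∧ dimP A {L | InNP A L} < 1 := by
  obtain ⟨K⟩ := exists_chain
  refine ⟨K.A, ?_⟩
  set S : Set ℝ := {s : ℝ | 0 ≤ s ∧ ∃ d : List Bool → ℝ, IsGale s d ∧ PComp K.A d ∧
    ∀ L ∈ {L | InNP K.A L}, Succeeds d L} with hS
  have h1 : s1 ∈ S := by
    refine ⟨s1_nonneg, DD K.βw, DD_isGale _, DD_pcomp _ _, fun L hL => ?_⟩
    obtain ⟨e, he⟩ := InNP.exists_index hL
    have h2 : L = {x | Ac e K.βw x K.Hw} := by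
      ext x
      exact he x
    rw [h2]
    exact K.succeeds e
  have h2 : ∀ s ∈ S, Real.logb 2 (5 / 4) ≤ s := by
    rintro s ⟨-, d, hg, hd, hsuc⟩
    by_contra hc
    rw [not_le] at hc
    refine K.not_succeeds (s := s) ?_ hg hd (hsuc _ (LH_inNP K.Hw K.βw))
    calc (2 : ℝ) ^ s ≤ 2 ^ Real.logb 2 (5 / 4) :=
          Real.rpow_le_rpow_of_exponent_le (by norm_num) hc.le
      _ = 5 / 4 := Real.rpow_logb (by norm_num) (by norm_num) (by norm_num)
  have h3 : 0 < Real.logb 2 (5 / 4) := Real.logb_pos (by norm_num) (by norm_num)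
  have h4 : dimP K.A {L | InNP K.A L} = sInf S := rfl
  rw [h4]
  constructor
  · exact lt_of_lt_of_le h3 (le_csInf ⟨s1, h1⟩ h2)
  · exact lt_of_le_of_lt (csInf_le ⟨0, fun s hs => hs.1⟩ h1) s1_lt_one

end Pool.Agent.H610R2.Dim
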