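import Pool.Agent.H610R2.Dim.Seq

/-!
The gale given by a betting scheme.
-/

namespace Pool.Agent.H610R2.Dim

/-- a betting scheme: for every account and every string the predicted bit, if there is a bet -/
abbrev Bet : Type := ℕ → List Bool → Option Bool

/-- the factor by which a bet changes the capital -/
noncomputable def fac (o : Option Bool) (b : Bool) : ℝ :=
  match o with
  | none => 1
  | some p => if p = b then 11 / 10 else 9 / 10

theorem fac_lb (o : Option Bool) (b : Bool) : 9 / 10 ≤ fac o b := by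
  unfold fac
  split
  · norm_num
  · split_ifs <;> norm_num

theorem fac_ub (o : Option Bool) (b : Bool) : fac o b ≤ 11 / 10 := by
  unfold fac
  split
  · norm_num
  · split_ifs <;> norm_num

theorem fac_add (o : Option Bool) : fac o false + fac o true = 2 := by
  unfold fac
  cases o with
  | none => norm_num
  | some p => cases p <;> norm_num

/-- the capital of account `e` -/
noncomputable def cap (β : Bet) (e : ℕ) (w : List Bool) : ℝ :=
  ∏ i ∈ Finset.range w.length, fac (β e (str i)) (w.getD i false)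

theorem cap_nonneg (β : Bet) (e : ℕ) (w : List Bool) : 0 ≤ cap β e w :=
  Finset.prod_nonneg fun i _ => le_trans (by norm_num) (fac_lb _ _)

theorem cap_le (β : Bet) (e : ℕ) (w : List Bool) : cap β e w ≤ (11 / 10) ^ w.length := by
  unfold cap
  calc ∏ i ∈ Finset.range w.length, fac (β e (str i)) (w.getD i false)
      ≤ ∏ _i ∈ Finset.range w.length, (11 / 10 : ℝ) :=
        Finset.prod_le_prod (fun i _ => le_trans (by norm_num) (fac_lb _ _))
          (fun i _ => fac_ub _ _)
    _ = _ := by rw [Finset.prod_const, Finset.card_range]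

theorem cap_append (β : Bet) (e : ℕ) (w : List Bool) (b : Bool) :
    cap β e (w ++ [b]) = cap β e w * fac (β e (str w.length)) b := by
  unfold cap
  rw [List.length_append, List.length_singleton, Finset.prod_range_succ]
  congr 1
  · refine Finset.prod_congr rfl fun i hi => ?_
    rw [Finset.mem_range] at hi
    rw [List.getD_append _ _ _ _ hi]
  · rw [List.getD_append_right _ _ _ _ le_rfl]
    simp

theorem summable_cap (β : Bet) (w : List Bool) :
    Summable fun e => (1 / 2 : ℝ) ^ (e + 1) * cap β e w := by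
  have h : Summable fun e : ℕ => (1 / 2 : ℝ) ^ (e + 1) * (11 / 10) ^ w.length :=
    ((summable_nat_add_iff 1).2 summable_geometric_two).mul_right _
  refine Summable.of_nonneg_of_le (fun e => mul_nonneg (by positivity) (cap_nonneg _ _ _))
    (fun e => ?_) h
  exact mul_le_mul_of_nonneg_left (cap_le _ _ _) (by positivity)

/-- the value of the gale -/
noncomputable def DD (β : Bet) (w : List Bool) : ℝ :=
  (999 / 1000) ^ w.length * ∑' e, (1 / 2 : ℝ) ^ (e + 1) * cap β e w

theorem DD_nonneg (β : Bet) (w : List Bool) : 0 ≤ DD β w :=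
  mul_nonneg (by positivity) (tsum_nonneg fun e => mul_nonneg (by positivity) (cap_nonneg _ _ _))

theorem DD_ge (β : Bet) (w : List Bool) (e : ℕ) :
    (999 / 1000) ^ w.length * ((1 / 2 : ℝ) ^ (e + 1) * cap β e w) ≤ DD β w := by
  refine mul_le_mul_of_nonneg_left ?_ (by positivity)
  exact (summable_cap β w).le_tsum e
    (fun e' _ => mul_nonneg (by positivity) (cap_nonneg _ _ _))

theorem tsum_half : ∑' e : ℕ, (1 / 2 : ℝ) ^ (e + 1) = 1 := by
  have h : ∑' e : ℕ, (1 / 2 : ℝ) ^ (e + 1) = ∑' e : ℕ, (1 / 2 : ℝ) ^ e * (1 / 2) := by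
    refine tsum_congr fun e => ?_
    rw [pow_succ]
  rw [h, tsum_mul_right, tsum_geometric_two]
  norm_num

theorem DD_le (β : Bet) (w : List Bool) : DD β w ≤ 2 ^ w.length := by
  have h1 : ∑' e, (1 / 2 : ℝ) ^ (e + 1) * cap β e w ≤ (11 / 10) ^ w.length := by
    have h : Summable fun e : ℕ => (1 / 2 : ℝ) ^ (e + 1) * (11 / 10) ^ w.length :=
      ((summable_nat_add_iff 1).2 summable_geometric_two).mul_right _
    calc ∑' e, (1 / 2 : ℝ) ^ (e + 1) * cap β e w
        ≤ ∑' e : ℕ, (1 / 2 : ℝ) ^ (e + 1) * (11 / 10) ^ w.length :=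
          (summable_cap β w).tsum_le_tsum
            (fun e => mul_le_mul_of_nonneg_left (cap_le _ _ _) (by positivity)) h
      _ = _ := by rw [tsum_mul_right, tsum_half, one_mul]
  calc DD β w ≤ (999 / 1000) ^ w.length * (11 / 10) ^ w.length :=
        mul_le_mul_of_nonneg_left h1 (by positivity)
    _ = (999 / 1000 * (11 / 10)) ^ w.length := by rw [mul_pow]
    _ ≤ 2 ^ w.length := pow_le_pow_left₀ (by norm_num) (by norm_num) _

theorem DD_add (β : Bet) (w : List Bool) :
    DD β (w ++ [false]) + DD β (w ++ [true]) = 2 * (999 / 1000) * DD β w := by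
  unfold DD
  simp only [cap_append, List.length_append, List.length_singleton]
  rw [← mul_add, ← (by
    have := summable_cap β (w ++ [false]); simpa only [cap_append] using this :
      Summable fun e => (1 / 2 : ℝ) ^ (e + 1) * (cap β e w * fac (β e (str w.length)) false)).tsum_add
    (by have := summable_cap β (w ++ [true]); simpa only [cap_append] using this)]
  have h : ∀ e, (1 / 2 : ℝ) ^ (e + 1) * (cap β e w * fac (β e (str w.length)) false) +
      (1 / 2 : ℝ) ^ (e + 1) * (cap β e w * fac (β e (str w.length)) true) =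
      (1 / 2 : ℝ) ^ (e + 1) * cap β e w * 2 := by
    intro e
    have := fac_add (β e (str w.length))
    calc _ = (1 / 2 : ℝ) ^ (e + 1) * cap β e w *
        (fac (β e (str w.length)) false + fac (β e (str w.length)) true) := by ring
      _ = _ := by rw [this]
  simp only [h]
  rw [tsum_mul_right, pow_succ]
  ring

/-- the exponent of the gale -/
noncomputable def s1 : ℝ := 1 + Real.logb 2 (999 / 1000)

theorem two_rpow_s1 : (2 : ℝ) ^ s1 = 2 * (999 / 1000) := by
  rw [s1, Real.rpow_add (by norm_num), Real.rpow_one, Real.rpow_logb (by norm_num) (by norm_num)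
    (by norm_num)]

theorem s1_lt_one : s1 < 1 := by
  have : Real.logb 2 (999 / 1000) < 0 := Real.logb_neg (by norm_num) (by norm_num) (by norm_num)
  rw [s1]
  linarith

theorem s1_nonneg : 0 ≤ s1 := by
  have h : (2 : ℝ) ^ (0 : ℝ) ≤ (2 : ℝ) ^ s1 := by
    rw [two_rpow_s1]
    norm_num
  exact (Real.rpow_le_rpow_left_iff (by norm_num)).1 h

theorem DD_isGale (β : Bet) : IsGale s1 (DD β) := by
  refine ⟨DD_nonneg β, fun w => ?_⟩
  rw [DD_add, Real.rpow_neg (by norm_num), two_rpow_s1, ← mul_assoc, inv_mul_cancel₀ (by norm_num),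
    one_mul]

theorem DD_congr {β β' : Bet} {w : List Bool}
    (h : ∀ e, ∀ i < w.length, β e (str i) = β' e (str i)) : DD β w = DD β' w := by
  unfold DD cap
  congr 1
  refine tsum_congr fun e => ?_
  congr 1
  refine Finset.prod_congr rfl fun i hi => ?_
  rw [h e i (Finset.mem_range.1 hi)]

/-! ### Success -/

open Classical in
/-- the places of level `n` where account `e` bets -/
noncomputable def betPl (β : Bet) (e n : ℕ) : Finset ℕ :=
  (Finset.Ico (2 ^ n - 1) (2 ^ (n + 1) - 1)).filter fun i => β e (str i) ≠ none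

open Classical in
/-- the places of level `n` where account `e` bets on the wrong bit -/
noncomputable def errPl (β : Bet) (L : Set (List Bool)) (e n : ℕ) : Finset ℕ :=
  (Finset.Ico (2 ^ n - 1) (2 ^ (n + 1) - 1)).filter fun i =>
    β e (str i) = some (!decide (str i ∈ L))

open Classical in
/-- the gain in level `n` -/
noncomputable def gain (β : Bet) (L : Set (List Bool)) (e n : ℕ) : ℝ :=
  ∏ i ∈ Finset.Ico (2 ^ n - 1) (2 ^ (n + 1) - 1), fac (β e (str i)) (decide (str i ∈ L))

theorem errPl_subset (β : Bet) (L : Set (List Bool)) (e n : ℕ) :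
    errPl β L e n ⊆ betPl β e n := by
  intro i hi
  rw [errPl, Finset.mem_filter] at hi
  rw [betPl, Finset.mem_filter]
  exact ⟨hi.1, by rw [hi.2]; simp⟩

theorem gain_eq (β : Bet) (L : Set (List Bool)) (e n : ℕ) :
    gain β L e n = (11 / 10) ^ ((betPl β e n).card - (errPl β L e n).card) *
      (9 / 10) ^ (errPl β L e n).card := by
  classical
  have h1 : gain β L e n = ∏ i ∈ betPl β e n, fac (β e (str i)) (decide (str i ∈ L)) := by
    rw [gain, betPl, Finset.prod_filter]
    refine Finset.prod_congr rfl fun i _ => ?_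
    split_ifs with h
    · rfl
    · rw [not_not] at h
      rw [h]
      rfl
  rw [h1, ← Finset.prod_sdiff (errPl_subset β L e n), Finset.prod_congr rfl (g := fun _ => (11 / 10 : ℝ)),
    Finset.prod_const, Finset.prod_congr rfl (g := fun _ => (9 / 10 : ℝ)), Finset.prod_const,
    Finset.card_sdiff_of_subset (errPl_subset β L e n)]
  · intro i hi
    rw [errPl, Finset.mem_filter] at hi
    rw [hi.2, fac]
    simp
  · intro i hi
    rw [Finset.mem_sdiff, betPl, errPl, Finset.mem_filter, Finset.mem_filter] at hi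
    obtain ⟨⟨h2, h3⟩, h4⟩ := hi
    cases ho : β e (str i) with
    | none => exact absurd ho h3
    | some p =>
      have hp : p = decide (str i ∈ L) := by
        by_contra hne
        apply h4
        refine ⟨h2, ?_⟩
        rw [ho]
        congr 1
        cases p <;> cases decide (str i ∈ L) <;> simp_all
      rw [fac, if_pos hp]

theorem gain_pow {β : Bet} {L : Set (List Bool)} {e n : ℕ}
    (h : 20 * (errPl β L e n).card ≤ 9 * (betPl β e n).card) :
    ((11 / 10 : ℝ) ^ 11 * (9 / 10) ^ 9) ^ (betPl β e n).card ≤ gain β L e n ^ 20 := by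
  rw [gain_eq]
  set q := (betPl β e n).card
  set f := (errPl β L e n).card
  have hfq : f ≤ q := by omega
  calc ((11 / 10 : ℝ) ^ 11 * (9 / 10) ^ 9) ^ q = (11 / 10) ^ (11 * q) * (9 / 10) ^ (9 * q) := by
        rw [mul_pow, ← pow_mul, ← pow_mul]
    _ = (11 / 10) ^ (11 * q) * ((9 / 10) ^ (9 * q - 20 * f) * (9 / 10) ^ (20 * f)) := by
        rw [← pow_add, Nat.sub_add_cancel h]
    _ ≤ (11 / 10) ^ (11 * q) * ((11 / 10) ^ (9 * q - 20 * f) * (9 / 10) ^ (20 * f)) := by
        gcongr
        norm_num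
    _ = (11 / 10) ^ (20 * (q - f)) * (9 / 10) ^ (20 * f) := by
        rw [← mul_assoc, ← pow_add]
        congr 2
        omega
    _ = ((11 / 10) ^ (q - f) * (9 / 10) ^ f) ^ 20 := by
        rw [mul_pow, ← pow_mul, ← pow_mul, mul_comm 20, mul_comm 20]

theorem gain_nonneg (β : Bet) (L : Set (List Bool)) (e n : ℕ) : 0 ≤ gain β L e n :=
  Finset.prod_nonneg fun i _ => le_trans (by norm_num) (fac_lb _ _)

theorem one_le_gain {β : Bet} {L : Set (List Bool)} {e n : ℕ}
    (h : 20 * (errPl β L e n).card ≤ 9 * (betPl β e n).card) : 1 ≤ gain β L e n := by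
  have h1 := gain_pow h
  have h2 : (1 : ℝ) ≤ ((11 / 10 : ℝ) ^ 11 * (9 / 10) ^ 9) ^ (betPl β e n).card :=
    one_le_pow₀ (by norm_num)
  by_contra hc
  rw [not_le] at hc
  have h3 : gain β L e n ^ 20 < 1 := pow_lt_one₀ (gain_nonneg _ _ _ _) hc (by norm_num)
  linarith

theorem cap_chi (β : Bet) (L : Set (List Bool)) (e : ℕ) : ∀ n : ℕ,
    cap β e (chi L (2 ^ n - 1)) = ∏ k ∈ Finset.range n, gain β L e k
  | 0 => by simp [cap]
  | n + 1 => by
      classical
      rw [Finset.prod_range_succ, ← cap_chi β L e n]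
      unfold cap gain
      simp only [chi_length]
      have h1 : 2 ^ n - 1 ≤ 2 ^ (n + 1) - 1 := by
        have : 2 ^ n ≤ 2 ^ (n + 1) := Nat.pow_le_pow_right (by norm_num) (by omega)
        omega
      rw [← Finset.prod_range_mul_prod_Ico _ h1]
      congr 1
      · refine Finset.prod_congr rfl fun i hi => ?_
        rw [Finset.mem_range] at hi
        rw [chi_getD L (lt_of_lt_of_le hi h1), chi_getD L hi]
      · refine Finset.prod_congr rfl fun i hi => ?_
        rw [Finset.mem_Ico] at hi
        rw [chi_getD L hi.2]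

theorem DD_succeeds {β : Bet} {L : Set (List Bool)} {e : ℕ}
    (h1 : ∀ n, 20 * (errPl β L e n).card ≤ 9 * (betPl β e n).card)
    (h2 : ∀ N, ∃ n ≥ N, 2 ^ n ≤ 2 * (betPl β e n).card) : Succeeds (DD β) L := by
  intro C
  rw [Filter.frequently_atTop]
  intro N
  -- a large level
  set C' : ℝ := max 1 (|C| * 2 ^ (e + 1)) with hC'
  have hC'1 : 1 ≤ C' := le_max_left _ _
  obtain ⟨Q, hQ⟩ : ∃ Q : ℕ, ∀ q ≥ Q, C' ^ 20 < (102 / 100 : ℝ) ^ q := by
    have := (tendsto_pow_atTop_atTop_of_one_lt (r := (102 / 100 : ℝ)) (by norm_num)).eventually_gt_atTop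
      (C' ^ 20)
    rw [Filter.eventually_atTop] at this
    exact this
  obtain ⟨n, hn, hq⟩ := h2 (max N (2 * Q + 1))
  set q := (betPl β e n).card
  have hnN : N ≤ n := le_trans (le_max_left _ _) hn
  have hnQ : 2 * Q + 1 ≤ n := le_trans (le_max_right _ _) hn
  have hlt : n < 2 ^ n := Nat.lt_two_pow_self
  have hqQ : Q ≤ q := by omega
  have hNq : 2 ^ (n + 1) - 1 ≤ 4 * q := by
    have : 2 ^ (n + 1) = 2 * 2 ^ n := by ring
    omega
  refine ⟨2 ^ (n + 1) - 1, by have : 2 ^ (n + 1) = 2 * 2 ^ n := by ring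
                              omega, ?_⟩
  have hcap : gain β L e n ≤ cap β e (chi L (2 ^ (n + 1) - 1)) := by
    rw [cap_chi, Finset.prod_range_succ]
    have : (1 : ℝ) ≤ ∏ k ∈ Finset.range n, gain β L e k := by
      calc (1 : ℝ) = ∏ k ∈ Finset.range n, (1 : ℝ) := by simp
        _ ≤ _ := Finset.prod_le_prod (fun _ _ => by norm_num) (fun k _ => one_le_gain (h1 k))
    exact le_mul_of_one_le_left (gain_nonneg _ _ _ _) this
  set K := 2 ^ (n + 1) - 1 with hK
  have hge := DD_ge β (chi L K) e
  rw [chi_length] at hge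
  -- the product of the gain and the discount is large
  have hX : C' < (999 / 1000 : ℝ) ^ K * gain β L e n := by
    by_contra hcon
    rw [not_lt] at hcon
    have h3 : ((999 / 1000 : ℝ) ^ K * gain β L e n) ^ 20 ≤ C' ^ 20 :=
      pow_le_pow_left₀ (mul_nonneg (by positivity) (gain_nonneg _ _ _ _)) hcon 20
    have h4 : (102 / 100 : ℝ) ^ q ≤ ((999 / 1000 : ℝ) ^ K * gain β L e n) ^ 20 := by
      calc (102 / 100 : ℝ) ^ q ≤ ((999 / 1000) ^ 80 * ((11 / 10) ^ 11 * (9 / 10) ^ 9)) ^ q :=
            pow_le_pow_left₀ (by norm_num) (by norm_num) _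
        _ = ((999 / 1000) ^ (4 * q)) ^ 20 * ((11 / 10) ^ 11 * (9 / 10) ^ 9) ^ q := by
            rw [mul_pow, ← pow_mul, ← pow_mul]
            congr 2
            ring
        _ ≤ ((999 / 1000) ^ K) ^ 20 * ((11 / 10) ^ 11 * (9 / 10) ^ 9) ^ q := by
            refine mul_le_mul_of_nonneg_right ?_ (by positivity)
            refine pow_le_pow_left₀ (by positivity) ?_ 20
            exact pow_le_pow_of_le_one (by norm_num) (by norm_num) hNq
        _ ≤ ((999 / 1000) ^ K) ^ 20 * gain β L e n ^ 20 :=
            mul_le_mul_of_nonneg_left (gain_pow (h1 n)) (by positivity)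
        _ = _ := by rw [mul_pow]
    have h5 := hQ q hqQ
    linarith
  have h6 : |C| * 2 ^ (e + 1) < (999 / 1000 : ℝ) ^ K * cap β e (chi L K) := by
    calc |C| * 2 ^ (e + 1) ≤ C' := le_max_right _ _
      _ < _ := hX
      _ ≤ _ := mul_le_mul_of_nonneg_left hcap (by positivity)
  have h7 : |C| < (999 / 1000 : ℝ) ^ K * ((1 / 2) ^ (e + 1) * cap β e (chi L K)) := by
    have h8 : (0 : ℝ) < (1 / 2) ^ (e + 1) := by positivity
    have h9 := mul_lt_mul_of_pos_right h6 h8
    have h10 : |C| * 2 ^ (e + 1) * (1 / 2) ^ (e + 1) = |C| := by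
      rw [mul_assoc, ← mul_pow]
      norm_num
    rw [h10] at h9
    calc |C| < _ := h9
      _ = _ := by ring
  exact lt_of_le_of_lt (le_abs_self C) (lt_of_lt_of_le h7 hge)

end Pool.Agent.H610R2.Dim
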