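import Pool.Agent.H610R2.Dim.Proc

/-!
The computations of the gale do not find hidden witnesses.
-/

namespace Pool.Agent.H610R2.Dim

open Finset

/-- the strings asked in the computations at the prefix of length `m` -/
noncomputable def Qs (e : ℕ) (β : Bet) (H : HP) (m : ℕ) : Finset (List Bool) :=
  qs e (inp m (chi (LH H) m)) (orc (Hlt H m) β) ∪
    (qs e (inp m (chi (LH H) m ++ [false])) (orc (Hlt H m) β) ∪
      qs e (inp m (chi (LH H) m ++ [true])) (orc (Hlt H m) β))

theorem Qs_congr {e : ℕ} {β : Bet} {H H' : HP} {m : ℕ} (h : Hlt H m = Hlt H' m) :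
    Qs e β H m = Qs e β H' m := by
  rw [Qs, Qs, h, chi_LH_congr h]

open Pool.Agent.H578R2 in
theorem Qs_card (e : ℕ) (β : Bet) (H : HP) (m : ℕ) : (Qs e β H m).card ≤ 3 * tb e (2 * m + 2) := by
  unfold Qs
  have h1 := qs_card e (inp m (chi (LH H) m)) (orc (Hlt H m) β)
  have h2 := qs_card e (inp m (chi (LH H) m ++ [false])) (orc (Hlt H m) β)
  have h3 := qs_card e (inp m (chi (LH H) m ++ [true])) (orc (Hlt H m) β)
  have l1 : tb e (inp m (chi (LH H) m)).length ≤ tb e (2 * m + 2) := by
    refine tb_mono e ?_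
    rw [inp_length, chi_length]
    omega
  have l2 : tb e (inp m (chi (LH H) m ++ [false])).length ≤ tb e (2 * m + 2) := by
    refine tb_mono e ?_
    rw [inp_length, List.length_append, chi_length, List.length_singleton]
    omega
  have l3 : tb e (inp m (chi (LH H) m ++ [true])).length ≤ tb e (2 * m + 2) := by
    refine tb_mono e ?_
    rw [inp_length, List.length_append, chi_length, List.length_singleton]
    omega
  refine (Finset.card_union_le _ _).trans ?_
  have h4 := Finset.card_union_le (qs e (inp m (chi (LH H) m ++ [false])) (orc (Hlt H m) β))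
    (qs e (inp m (chi (LH H) m ++ [true])) (orc (Hlt H m) β))
  omega

open Pool.Agent.H578R2 in
theorem Qs_length {e : ℕ} {β : Bet} {H : HP} {m : ℕ} {s : List Bool} (h : s ∈ Qs e β H m) :
    s.length ≤ 2 * m + 2 + tb e (2 * m + 2) := by
  unfold Qs at h
  rw [Finset.mem_union, Finset.mem_union] at h
  have key : ∀ x : List Bool, x.length ≤ 2 * m + 2 → s ∈ qs e x (orc (Hlt H m) β) →
      s.length ≤ 2 * m + 2 + tb e (2 * m + 2) := by
    intro x hx hs
    have h1 := qs_length hs
    have h2 := tb_mono e hx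
    omega
  rcases h with h | h | h
  · refine key _ ?_ h
    rw [inp_length, chi_length]
    omega
  · refine key _ ?_ h
    rw [inp_length, List.length_append, chi_length, List.length_singleton]
    omega
  · refine key _ ?_ h
    rw [inp_length, List.length_append, chi_length, List.length_singleton]
    omega

/-- a computation finds a witness of the string number `m` -/
def Hit (e : ℕ) (β : Bet) (me : ℕ) (H : HP) (m : ℕ) : Prop :=
  ∃ y, (str m, y) ∈ H ∧ ∃ m', me ≤ m' ∧ m' ≤ m ∧ hc y (str m) ∈ Qs e β H m'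

section sample

variable {m0 N : ℕ} {τ : Bool} {past : HP}

open Classical in
theorem card_hit_one (e : ℕ) (β : Bet) (me : ℕ) (hpast : ∀ q ∈ past, idx q.1 < m0) (i : Fin N) :
    ((univ.filter fun ω : Sp m0 N × Sp m0 N => Hit e β me (Hs τ past ω) (m0 + i)).card : ℝ) ≤
      (2 * ((m0 + i + 1) * (3 * Pool.Agent.H578R2.tb e (2 * (m0 + i) + 2)) : ℕ) /
        2 ^ (2 * (str (m0 + i)).length ^ 2) : ℝ) *
      (Fintype.card (Sp m0 N × Sp m0 N) : ℝ) := by
  set m := m0 + (i : ℕ) with hm
  set U : ℕ := (m + 1) * (3 * Pool.Agent.H578R2.tb e (2 * m + 2)) with hU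
  set K : ℝ := 2 ^ (2 * (str m).length ^ 2) with hK
  have hKpos : 0 < K := by positivity
  have hcardZ : (Fintype.card (ZZ (m0 + i)) : ℝ) = 2 * K := by
    rw [card_ZZ]
    push_cast
    rfl
  have h1 : ((univ.filter fun ω : Sp m0 N × Sp m0 N => Hit e β me (Hs τ past ω) m).card : ℝ) =
      ∑ ω : Sp m0 N × Sp m0 N, if Hit e β me (Hs τ past ω) m then (1 : ℝ) else 0 := by
    rw [Finset.sum_boole]
  rw [h1]
  have h2 : (2 * (U : ℝ) / K) * (Fintype.card (Sp m0 N × Sp m0 N) : ℝ) =
      ∑ _ω : Sp m0 N × Sp m0 N, (2 * (U : ℝ) / K) := by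
    rw [Finset.sum_const, Finset.card_univ, nsmul_eq_mul, mul_comm]
  rw [h2]
  refine resample2_le i _ _ Fintype.card_pos fun ω => ?_
  -- the strings asked
  set W : Finset (List Bool) := (Finset.range (m + 1)).biUnion fun m' =>
    if me ≤ m' then Qs e β (Hs τ past ω) m' else ∅ with hW
  have hWcard : W.card ≤ U := by
    rw [hW]
    refine Finset.card_biUnion_le.trans ?_
    calc ∑ m' ∈ Finset.range (m + 1), (if me ≤ m' then Qs e β (Hs τ past ω) m' else ∅).card
        ≤ ∑ m' ∈ Finset.range (m + 1), 3 * Pool.Agent.H578R2.tb e (2 * m + 2) := by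
          refine Finset.sum_le_sum fun m' hm' => ?_
          rw [Finset.mem_range] at hm'
          split_ifs
          · refine (Qs_card e β _ m').trans (Nat.mul_le_mul_left 3 (tb_mono e ?_))
            omega
          · simp
      _ = U := by rw [Finset.sum_const, Finset.card_range, smul_eq_mul]
  have hp : ∀ p : ZZ (m0 + i) × ZZ (m0 + i),
      (if Hit e β me (Hs τ past (upd ω i p)) m then (1 : ℝ) else 0) ≤
      (if hc (List.ofFn p.1.2) (str m) ∈ W then (1 : ℝ) else 0) +
        (if hc (List.ofFn p.2.2) (str m) ∈ W then (1 : ℝ) else 0) := by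
    intro p
    have h01 : (0 : ℝ) ≤ if hc (List.ofFn p.1.2) (str m) ∈ W then (1 : ℝ) else 0 := by
      split_ifs <;> norm_num
    have h02 : (0 : ℝ) ≤ if hc (List.ofFn p.2.2) (str m) ∈ W then (1 : ℝ) else 0 := by
      split_ifs <;> norm_num
    by_cases hh : Hit e β me (Hs τ past (upd ω i p)) m
    · rw [if_pos hh]
      obtain ⟨y, hy, m', hm1, hm2, hq⟩ := hh
      have hq' : hc y (str m) ∈ W := by
        rw [hW, Finset.mem_biUnion]
        refine ⟨m', Finset.mem_range.2 (by omega), ?_⟩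
        rw [if_pos hm1]
        rwa [Qs_congr (Hlt_mono_eq (Hlt_upd (τ := τ) (past := past) ω i p) hm2)] at hq
      rcases hy with (hy | hy) | hy
      · have := hpast _ hy
        rw [idx_str] at this
        omega
      · simp only [upd] at hy
        have hy2 := (mem_A1 _ i y).1 hy
        rw [Function.update_self] at hy2
        rw [hy2.2] at hq'
        rw [if_pos hq']
        linarith
      · have hy := hy.2
        simp only [upd] at hy
        have hy2 := (mem_A1 _ i y).1 hy
        rw [Function.update_self] at hy2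
        rw [hy2.2] at hq'
        rw [if_pos hq']
        linarith
    · rw [if_neg hh]
      linarith
  have hs1 : ∑ u : ZZ (m0 + i), (if hc (List.ofFn u.2) (str m) ∈ W then (1 : ℝ) else 0) ≤
      2 * U := by
    rw [Finset.sum_boole]
    refine (hit_card W).trans ?_
    have : (W.card : ℝ) ≤ U := by exact_mod_cast hWcard
    linarith
  have hZ0 : (0 : ℝ) ≤ (Fintype.card (ZZ (m0 + i)) : ℝ) := by positivity
  calc ∑ p : ZZ (m0 + i) × ZZ (m0 + i),
        (if Hit e β me (Hs τ past (upd ω i p)) m then (1 : ℝ) else 0)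
      ≤ ∑ p : ZZ (m0 + i) × ZZ (m0 + i), ((if hc (List.ofFn p.1.2) (str m) ∈ W then (1 : ℝ) else 0) +
        (if hc (List.ofFn p.2.2) (str m) ∈ W then (1 : ℝ) else 0)) :=
        Finset.sum_le_sum fun p _ => hp p
    _ = (Fintype.card (ZZ (m0 + i)) : ℝ) *
          (∑ u : ZZ (m0 + i), (if hc (List.ofFn u.2) (str m) ∈ W then (1 : ℝ) else 0)) +
        (Fintype.card (ZZ (m0 + i)) : ℝ) *
          (∑ u : ZZ (m0 + i), (if hc (List.ofFn u.2) (str m) ∈ W then (1 : ℝ) else 0)) := by
        rw [Finset.sum_add_distrib,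
          sum_fst (fun u : ZZ (m0 + i) => if hc (List.ofFn u.2) (str m) ∈ W then (1 : ℝ) else 0),
          sum_snd (fun u : ZZ (m0 + i) => if hc (List.ofFn u.2) (str m) ∈ W then (1 : ℝ) else 0)]
    _ ≤ (Fintype.card (ZZ (m0 + i)) : ℝ) * (2 * U) + (Fintype.card (ZZ (m0 + i)) : ℝ) * (2 * U) := by
        gcongr
    _ = (Fintype.card (ZZ (m0 + i)) : ℝ) ^ 2 * (2 * (U : ℝ) / K) := by
        rw [hcardZ]
        field_simp
        ring

open Classical in
/-- the samples for which a computation of machine `e` finds a witness -/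
noncomputable def badH (e : ℕ) (β : Bet) (me m0 N : ℕ) (τ : Bool) (past : HP) :
    Finset (Sp m0 N × Sp m0 N) :=
  univ.filter fun ω => ∃ i : Fin N, Hit e β me (Hs τ past ω) (m0 + i)

theorem card_badH (e : ℕ) (β : Bet) (me : ℕ) (hpast : ∀ q ∈ past, idx q.1 < m0)
    (hpoly : ∀ m ≥ m0, 6 * (m + 1) * Pool.Agent.H578R2.tb e (2 * m + 2) * ((m + 1) * (m + 2)) ≤
      2 ^ (2 * (str m).length ^ 2)) :
    ((badH e β me m0 N τ past).card : ℝ) ≤
      1 / (m0 + 1) * (Fintype.card (Sp m0 N × Sp m0 N) : ℝ) := by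
  classical
  set c := (Fintype.card (Sp m0 N × Sp m0 N) : ℝ) with hc
  have hcard : (0 : ℝ) ≤ c := by positivity
  have h1 : badH e β me m0 N τ past ⊆ (univ : Finset (Fin N)).biUnion fun i =>
      univ.filter fun ω : Sp m0 N × Sp m0 N => Hit e β me (Hs τ past ω) (m0 + i) := by
    intro ω hω
    rw [badH, Finset.mem_filter] at hω
    obtain ⟨-, i, hi⟩ := hω
    rw [Finset.mem_biUnion]
    exact ⟨i, Finset.mem_univ _, Finset.mem_filter.2 ⟨Finset.mem_univ _, hi⟩⟩
  have h2 : ∀ i : Fin N, ((univ.filter fun ω : Sp m0 N × Sp m0 N =>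
      Hit e β me (Hs τ past ω) (m0 + i)).card : ℝ) ≤
      (1 / ((m0 + i + 1 : ℝ)) - 1 / (m0 + i + 2 : ℝ)) * c := by
    intro i
    refine (card_hit_one e β me hpast i).trans (mul_le_mul_of_nonneg_right ?_ hcard)
    have hp := hpoly (m0 + i) (by omega)
    have hp' : (6 * ((m0 + i : ℕ) + 1) * (Pool.Agent.H578R2.tb e (2 * (m0 + i) + 2) : ℕ) *
      (((m0 + i : ℕ) + 1) * ((m0 + i : ℕ) + 2)) : ℝ) ≤ 2 ^ (2 * (str (m0 + i)).length ^ 2) := by
      exact_mod_cast hp
    push_cast at hp' ⊢
    have hA : (0 : ℝ) < (m0 : ℝ) + i + 1 := by positivity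
    have hB : (0 : ℝ) < (m0 : ℝ) + i + 2 := by positivity
    have e1 : 1 / ((m0 + i + 1 : ℝ)) - 1 / (m0 + i + 2 : ℝ) =
        1 / ((m0 + i + 1) * (m0 + i + 2)) := by
      field_simp
      ring
    rw [e1, div_le_div_iff₀ (by positivity) (by positivity)]
    linarith
  have h3 : ∀ n : ℕ, ∑ i : Fin n, (1 / ((m0 + i + 1 : ℝ)) - 1 / (m0 + i + 2 : ℝ)) =
      1 / (m0 + 1) - 1 / (m0 + n + 1) := by
    intro n
    induction n with
    | zero => simp
    | succ n ih =>
      rw [Fin.sum_univ_castSucc]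
      simp only [Fin.val_castSucc, Fin.val_last]
      rw [ih]
      push_cast
      ring
  calc ((badH e β me m0 N τ past).card : ℝ)
      ≤ (((univ : Finset (Fin N)).biUnion fun i =>
        univ.filter fun ω : Sp m0 N × Sp m0 N => Hit e β me (Hs τ past ω) (m0 + i)).card : ℝ) := by
        exact_mod_cast Finset.card_le_card h1
    _ ≤ ∑ i : Fin N, ((univ.filter fun ω : Sp m0 N × Sp m0 N =>
          Hit e β me (Hs τ past ω) (m0 + i)).card : ℝ) := by
        exact_mod_cast Finset.card_biUnion_le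
    _ ≤ ∑ i : Fin N, (1 / ((m0 + i + 1 : ℝ)) - 1 / (m0 + i + 2 : ℝ)) * c :=
        Finset.sum_le_sum fun i _ => h2 i
    _ = (1 / (m0 + 1) - 1 / (m0 + N + 1)) * c := by
        rw [← Finset.sum_mul, h3]
    _ ≤ 1 / (m0 + 1) * c := by
        refine mul_le_mul_of_nonneg_right ?_ hcard
        have : (0 : ℝ) ≤ 1 / (m0 + N + 1) := by positivity
        linarith

end sample

end Pool.Agent.H610R2.Dim
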