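import Pool.Agent.H610R2.Dim.Runs

/-!
The machine which guesses a witness.
-/

namespace Pool.Agent.H610R2.Dim

open Pool.Agent.H578R2

/-- contents of the stacks `0`, `1`, `2` -/
def st3 (s s1 s2 : List Bool) : ℕ → List Bool := fun k =>
  if k = 0 then s else if k = 1 then s1 else if k = 2 then s2 else []

theorem st3_zero (s s1 s2 : List Bool) : st3 s s1 s2 0 = s := rfl

theorem st3_one (s s1 s2 : List Bool) : st3 s s1 s2 1 = s1 := rfl

theorem st3_two (s s1 s2 : List Bool) : st3 s s1 s2 2 = s2 := rfl

theorem update_st3_zero (s s1 s2 r : List Bool) :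
    Function.update (st3 s s1 s2) 0 r = st3 r s1 s2 := by
  funext k
  by_cases hk : k = 0
  · subst hk; simp [st3]
  · rw [Function.update_of_ne hk]
    simp [st3, hk]

theorem update_st3_one (s s1 s2 r : List Bool) :
    Function.update (st3 s s1 s2) 1 r = st3 s r s2 := by
  funext k
  by_cases hk : k = 1
  · subst hk; simp [st3]
  · rw [Function.update_of_ne hk]
    simp [st3, hk]

theorem update_st3_two (s s1 s2 r : List Bool) :
    Function.update (st3 s s1 s2) 2 r = st3 s s1 r := by
  funext k
  by_cases hk : k = 2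
  · subst hk; simp [st3]
  · rw [Function.update_of_ne hk]
    simp [st3, hk]

open Classical in
/-- the answer to a question, as a bit -/
noncomputable def bt (A : Set (List Bool)) (t : List Bool) : Bool := decide (t ∈ A)

theorem bt_true {A : Set (List Bool)} {t : List Bool} : bt A t = true ↔ t ∈ A := by
  simp [bt]

theorem bt_false {A : Set (List Bool)} {t : List Bool} : bt A t = false ↔ t ∉ A := by
  simp [bt]

inductive CQ : Type
  | s | a | a1 | a2 (b : Bool) | g0 | g1 (g : Bool) | g2 | f0 | f1 | f2 | fin (b : Bool)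
  deriving Fintype

def cact : CQ → Act CQ
  | .s => .push 0 false .a
  | .a => .push 0 false .a1
  | .a1 => .ask 0 .a2
  | .a2 b => .pop 0 (if b then .f0 else .g0)
  | .g0 => .guess .g1
  | .g1 g => .push 0 g .g2
  | .g2 => .push 0 true .a
  | .f0 => .push 0 true .f1
  | .f1 => .push 0 true .f2
  | .f2 => .ask 0 .fin
  | .fin b => .halt b

def CM : Machine := ⟨CQ, inferInstance, .s, cact⟩

def cc (q : CQ) (s : List Bool) : CM.Config := (q, st3 s [] [])

theorem cc_init (x : List Bool) : CM.init x = cc .s x := by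
  rw [Machine.init, cc]
  congr 1
  funext k
  simp only [st3]
  split
  · rfl
  · simp

section steps

variable (A : Set (List Bool)) (g : Bool) (s : List Bool)

theorem cs_s : CM.step A g (cc .s s) = cc .a (false :: s) := by
  change (_, Function.update (st3 s [] []) 0 _) = _
  rw [update_st3_zero]; rfl

theorem cs_a : CM.step A g (cc .a s) = cc .a1 (false :: s) := by
  change (_, Function.update (st3 s [] []) 0 _) = _
  rw [update_st3_zero]; rfl

theorem cs_a1 : CM.step A g (cc .a1 s) = cc (.a2 (bt A s)) s := rfl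

theorem cs_a2 (b : Bool) : CM.step A g (cc (.a2 b) s) = cc (if b then .f0 else .g0) s.tail := by
  change (_, Function.update (st3 s [] []) 0 _) = _
  rw [update_st3_zero]; rfl

theorem cs_g0 : CM.step A g (cc .g0 s) = cc (.g1 g) s := rfl

theorem cs_g1 (b : Bool) : CM.step A g (cc (.g1 b) s) = cc .g2 (b :: s) := by
  change (_, Function.update (st3 s [] []) 0 _) = _
  rw [update_st3_zero]; rfl

theorem cs_g2 : CM.step A g (cc .g2 s) = cc .a (true :: s) := by
  change (_, Function.update (st3 s [] []) 0 _) = _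
  rw [update_st3_zero]; rfl

theorem cs_f0 : CM.step A g (cc .f0 s) = cc .f1 (true :: s) := by
  change (_, Function.update (st3 s [] []) 0 _) = _
  rw [update_st3_zero]; rfl

theorem cs_f1 : CM.step A g (cc .f1 s) = cc .f2 (true :: s) := by
  change (_, Function.update (st3 s [] []) 0 _) = _
  rw [update_st3_zero]; rfl

theorem cs_f2 : CM.step A g (cc .f2 s) = cc (.fin (bt A s)) s := rfl

end steps

theorem cm_start (A : Set (List Bool)) (w : ℕ → Bool) (x : List Bool) :
    CM.run A 1 w (cc .s x) = cc .a (enc [] x) := by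
  rw [Machine.run_one, cs_s]
  rfl

theorem cm_round (A : Set (List Bool)) (w : ℕ → Bool) (y x : List Bool) (h : sc y x ∉ A) :
    CM.run A 6 w (cc .a (enc y x)) = cc .a (enc (w 3 :: y) x) := by
  have h1 : bt A (false :: enc y x) = false := bt_false.2 h
  simp only [Machine.run, cs_a, cs_a1, h1, cs_a2, Bool.false_eq_true, if_false, List.tail_cons,
    cs_g0, cs_g1, cs_g2]
  rfl

theorem cm_end (A : Set (List Bool)) (w : ℕ → Bool) (y x : List Bool) (h : sc y x ∈ A) :
    CM.run A 6 w (cc .a (enc y x)) = cc (.fin (bt A (hc y x))) (hc y x) := by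
  have h1 : bt A (false :: enc y x) = true := bt_true.2 h
  simp only [Machine.run, cs_a, cs_a1, h1, cs_a2, if_true, List.tail_cons, cs_f0, cs_f1, cs_f2]
  rfl

/-- the guessed string -/
def ys (w : ℕ → Bool) : ℕ → List Bool
  | 0 => []
  | j + 1 => w (6 * j + 4) :: ys w j

theorem ys_length (w : ℕ → Bool) : ∀ j, (ys w j).length = j
  | 0 => rfl
  | j + 1 => by rw [ys, List.length_cons, ys_length w j]

theorem exists_ys (y : List Bool) : ∃ w, ys w y.length = y := by
  let w : ℕ → Bool := fun i => y.reverse.getD (i / 6) false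
  refine ⟨w, ?_⟩
  have key : ∀ j ≤ y.length, ys w j = (y.reverse.take j).reverse := by
    intro j
    induction j with
    | zero => intro _; simp [ys]
    | succ j ih =>
      intro hj
      have h1 : (6 * j + 4) / 6 = j := by omega
      have h2 : j < y.reverse.length := by rw [List.length_reverse]; omega
      rw [ys, ih (by omega), List.take_succ_eq_append_getElem h2, List.reverse_append]
      simp only [w, h1, List.reverse_singleton, List.singleton_append]
      rw [List.getD_eq_getElem _ _ h2]
  rw [key _ le_rfl]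
  rw [← List.length_reverse, List.take_length, List.reverse_reverse]

theorem cm_loop (H : Set (List Bool × List Bool)) (β : Bet) (w : ℕ → Bool) (x : List Bool) :
    ∀ j ≤ 2 * x.length ^ 2, CM.run (orc H β) (1 + 6 * j) w (cc .s x) = cc .a (enc (ys w j) x)
  | 0, _ => cm_start _ _ _
  | j + 1, hj => by
      have e : 1 + 6 * (j + 1) = (1 + 6 * j) + 6 := by ring
      rw [e, Machine.run_add, cm_loop H β w x j (by omega), cm_round]
      · rw [ys]
        have : 3 + (1 + 6 * j) = 6 * j + 4 := by ring
        rw [this]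
      · rw [sc_mem, ys_length]
        omega

theorem cm_run (H : Set (List Bool × List Bool)) (β : Bet) (w : ℕ → Bool) (x : List Bool) :
    CM.run (orc H β) (1 + 6 * (2 * x.length ^ 2) + 6) w (CM.init x) =
      cc (.fin (bt (orc H β) (hc (ys w (2 * x.length ^ 2)) x))) (hc (ys w (2 * x.length ^ 2)) x) := by
  rw [cc_init, Machine.run_add, cm_loop _ _ _ _ _ le_rfl, cm_end]
  rw [sc_mem, ys_length]

theorem pb_exists_exp {f : ℕ → ℕ} (hf : PB f) : ∃ d, ∀ n, f n ≤ n ^ d + d := by
  obtain ⟨k, hk⟩ := hf
  refine ⟨3 ^ k + 2 * k, fun n => (hk n).trans ?_⟩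
  rcases Nat.lt_or_ge n 2 with hn | hn
  · have h1 : (n + 2) ^ k ≤ 3 ^ k := Nat.pow_le_pow_left (by omega) k
    exact h1.trans ((Nat.le_add_right _ _).trans (Nat.le_add_left _ _))
  · calc (n + 2) ^ k ≤ (n * n) ^ k := Nat.pow_le_pow_left (by nlinarith) k
      _ = n ^ (2 * k) := by rw [← pow_two, ← pow_mul]
      _ ≤ n ^ (3 ^ k + 2 * k) := Nat.pow_le_pow_right (by omega) (Nat.le_add_left _ _)
      _ ≤ _ := Nat.le_add_right _ _

theorem LH_inNP (H : Set (List Bool × List Bool)) (β : Bet) : InNP (orc H β) (LH H) := by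
  have hpb : PB (fun n => 1 + 6 * (2 * n ^ 2) + 6) :=
    ((PB.const 1).add ((PB.const 6).mul ((PB.const 2).mul (PB.id.pow 2)))).add (PB.const 6)
  obtain ⟨d, hd⟩ := pb_exists_exp hpb
  refine ⟨CM, d, fun x => ?_⟩
  have hrun : ∀ w, CM.run (orc H β) (x.length ^ d + d) w (CM.init x) =
      cc (.fin (bt (orc H β) (hc (ys w (2 * x.length ^ 2)) x))) (hc (ys w (2 * x.length ^ 2)) x) := by
    intro w
    rw [CM.run_of_le (orc H β) (hd x.length) w, cm_run]
    rw [cm_run]
    exact ⟨_, rfl⟩
  constructor
  · intro w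
    rw [hrun]
    exact ⟨_, rfl⟩
  · constructor
    · rintro ⟨y, hy, hm⟩
      obtain ⟨w, hw⟩ := exists_ys y
      refine ⟨w, ?_⟩
      rw [hrun]
      rw [hy] at hw
      rw [hw]
      change Act.halt _ = Act.halt true
      rw [bt_true.2 (hc_mem.2 hm)]
    · rintro ⟨w, hw⟩
      rw [hrun] at hw
      have h1 : Act.halt (bt (orc H β) (hc (ys w (2 * x.length ^ 2)) x)) =
        (Act.halt true : Act CQ) := hw
      rw [Act.halt.injEq, bt_true, hc_mem] at h1
      exact ⟨ys w (2 * x.length ^ 2), ys_length _ _, h1⟩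

end Pool.Agent.H610R2.Dim
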