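import Pool.Agent.H610R2.Dim.Gale

/-!
The oracle given by a set of hidden pairs and a betting scheme.
-/

namespace Pool.Agent.H610R2.Dim

/-- a list of answers on top of the string `x` -/
def enc : List Bool → List Bool → List Bool
  | [], x => false :: x
  | b :: y, x => true :: b :: enc y x

theorem enc_inj : ∀ {y x y' x' : List Bool}, enc y x = enc y' x' → y = y' ∧ x = x'
  | [], x, [], x', h => by
      simp only [enc, List.cons.injEq, true_and] at h
      exact ⟨rfl, h⟩
  | [], x, b' :: y', x', h => by simp [enc] at h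
  | b :: y, x, [], x', h => by simp [enc] at h
  | b :: y, x, b' :: y', x', h => by
      simp only [enc, List.cons.injEq, true_and] at h
      obtain ⟨h1, h2⟩ := h
      obtain ⟨h3, h4⟩ := enc_inj h2
      exact ⟨by rw [h1, h3], h4⟩

theorem enc_length : ∀ (y x : List Bool), (enc y x).length = 2 * y.length + x.length + 1
  | [], x => by simp [enc]
  | b :: y, x => by
      rw [enc, List.length_cons, List.length_cons, enc_length y x, List.length_cons]
      ring

/-- the question: are there enough bits? -/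
def sc (y x : List Bool) : List Bool := false :: enc y x

/-- the question for the next bit of the output of the gale -/
def tc (y x : List Bool) : List Bool := true :: false :: enc y x

/-- the question whether a pair is hidden -/
def hc (y x : List Bool) : List Bool := true :: true :: enc y x

theorem hc_length (y x : List Bool) : (hc y x).length = 2 * y.length + x.length + 3 := by
  rw [hc, List.length_cons, List.length_cons, enc_length]

theorem tc_length (y x : List Bool) : (tc y x).length = 2 * y.length + x.length + 3 := by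
  rw [tc, List.length_cons, List.length_cons, enc_length]

theorem hc_inj {y x y' x' : List Bool} (h : hc y x = hc y' x') : y = y' ∧ x = x' := by
  simp only [hc, List.cons.injEq, true_and] at h
  exact enc_inj h

/-- the numerator of the approximation with denominator `2 ^ r` -/
noncomputable def num (β : Bet) (r : ℕ) (w : List Bool) : ℕ := ⌊DD β w * 2 ^ r⌋₊

theorem num_lt (β : Bet) (r : ℕ) (w : List Bool) : num β r w < 2 ^ (r + w.length + 1) := by
  have h0 : 0 ≤ DD β w * 2 ^ r := mul_nonneg (DD_nonneg _ _) (by positivity)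
  rw [num, Nat.floor_lt h0]
  push_cast
  calc DD β w * 2 ^ r ≤ 2 ^ w.length * 2 ^ r :=
        mul_le_mul_of_nonneg_right (DD_le _ _) (by positivity)
    _ < 2 ^ (r + w.length + 1) := by
        rw [pow_succ, pow_add]
        have : (0 : ℝ) < 2 ^ w.length * 2 ^ r := by positivity
        nlinarith

theorem num_close (β : Bet) (r : ℕ) (w : List Bool) :
    |(num β r w : ℝ) / 2 ^ r - DD β w| ≤ (1 / 2 : ℝ) ^ r := by
  have h0 : 0 ≤ DD β w * 2 ^ r := mul_nonneg (DD_nonneg _ _) (by positivity)
  have h1 := Nat.floor_le h0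
  have h2 := Nat.lt_floor_add_one (DD β w * 2 ^ r)
  have h3 : (0 : ℝ) < 2 ^ r := by positivity
  have h4 : (num β r w : ℝ) / 2 ^ r - DD β w = ((num β r w : ℝ) - DD β w * 2 ^ r) / 2 ^ r := by
    field_simp
  rw [h4, abs_div, abs_of_pos h3, div_le_iff₀ h3, ← mul_pow]
  have h5 : (1 / 2 * 2 : ℝ) = 1 := by norm_num
  rw [h5, one_pow, abs_le]
  rw [num]
  constructor <;> linarith

/-- the `i`-th bit of the output on input `x` is `1` -/
def TB (β : Bet) (i : ℕ) (x : List Bool) : Prop :=
  ∃ r w, x = inp r w ∧ ((i % 2 = 0 ∧ (num β r w).testBit (i / 2) = true) ∨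
    (i % 2 = 1 ∧ i / 2 = r))

theorem TB_inp (β : Bet) (i r : ℕ) (w : List Bool) : TB β i (inp r w) ↔
    ((i % 2 = 0 ∧ (num β r w).testBit (i / 2) = true) ∨ (i % 2 = 1 ∧ i / 2 = r)) := by
  constructor
  · rintro ⟨r', w', h, h'⟩
    obtain ⟨rfl, rfl⟩ := inp_inj h
    exact h'
  · intro h
    exact ⟨r, w, rfl, h⟩

/-- the oracle -/
def orc (H : Set (List Bool × List Bool)) (β : Bet) : Set (List Bool) :=
  {u | (∃ y x, u = sc y x ∧ 2 * x.length ^ 2 ≤ y.length) ∨
    (∃ y x, u = tc y x ∧ TB β y.length x) ∨ (∃ y x, u = hc y x ∧ (x, y) ∈ H)}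

theorem sc_mem {H : Set (List Bool × List Bool)} {β : Bet} {y x : List Bool} :
    sc y x ∈ orc H β ↔ 2 * x.length ^ 2 ≤ y.length := by
  constructor
  · rintro (⟨y', x', h, h'⟩ | ⟨y', x', h, h'⟩ | ⟨y', x', h, h'⟩)
    · simp only [sc, List.cons.injEq, true_and] at h
      obtain ⟨rfl, rfl⟩ := enc_inj h
      exact h'
    · simp [sc, tc] at h
    · simp [sc, hc] at h
  · intro h
    exact Or.inl ⟨y, x, rfl, h⟩

theorem tc_mem {H : Set (List Bool × List Bool)} {β : Bet} {y x : List Bool} :
    tc y x ∈ orc H β ↔ TB β y.length x := by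
  constructor
  · rintro (⟨y', x', h, h'⟩ | ⟨y', x', h, h'⟩ | ⟨y', x', h, h'⟩)
    · simp [sc, tc] at h
    · simp only [tc, List.cons.injEq, true_and] at h
      obtain ⟨rfl, rfl⟩ := enc_inj h
      exact h'
    · simp [tc, hc] at h
  · intro h
    exact Or.inr (Or.inl ⟨y, x, rfl, h⟩)

theorem hc_mem {H : Set (List Bool × List Bool)} {β : Bet} {y x : List Bool} :
    hc y x ∈ orc H β ↔ (x, y) ∈ H := by
  constructor
  · rintro (⟨y', x', h, h'⟩ | ⟨y', x', h, h'⟩ | ⟨y', x', h, h'⟩)
    · simp [sc, hc] at h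
    · simp [tc, hc] at h
    · obtain ⟨rfl, rfl⟩ := hc_inj h
      exact h'
  · intro h
    exact Or.inr (Or.inr ⟨y, x, rfl, h⟩)

theorem TB_congr {β β' : Bet} {N i : ℕ} {x : List Bool} (hx : x.length ≤ N)
    (hβ : ∀ e, ∀ i < N, β e (str i) = β' e (str i)) : TB β i x ↔ TB β' i x := by
  unfold TB
  refine exists_congr fun r => exists_congr fun w => and_congr_right fun h => ?_
  have h1 : num β r w = num β' r w := by
    rw [num, num, DD_congr]
    intro e i hi
    refine hβ e i ?_
    rw [h, inp_length] at hx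
    omega
  rw [h1]

theorem orc_congr {H H' : Set (List Bool × List Bool)} {β β' : Bet} {N : ℕ} {u : List Bool}
    (hu : u.length ≤ N) (hβ : ∀ e, ∀ i < N, β e (str i) = β' e (str i))
    (hH : ∀ y x, u = hc y x → ((x, y) ∈ H ↔ (x, y) ∈ H')) : u ∈ orc H β ↔ u ∈ orc H' β' := by
  unfold orc
  rw [Set.mem_ofPred_eq, Set.mem_ofPred_eq]
  refine or_congr Iff.rfl (or_congr ?_ ?_)
  · refine exists_congr fun y => exists_congr fun x => and_congr_right fun h => ?_
    refine TB_congr (N := N) ?_ hβ
    have := tc_length y x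
    rw [← h] at this
    omega
  · refine exists_congr fun y => exists_congr fun x => and_congr_right fun h => ?_
    exact hH y x h

/-- the language of the strings with a hidden witness -/
def LH (H : Set (List Bool × List Bool)) : Set (List Bool) :=
  {x | ∃ y, y.length = 2 * x.length ^ 2 ∧ (x, y) ∈ H}

/-- the pairs whose first component comes before the `m`-th string -/
def Hlt (H : Set (List Bool × List Bool)) (m : ℕ) : Set (List Bool × List Bool) :=
  {p | p ∈ H ∧ idx p.1 < m}

theorem Hlt_Hlt {H : Set (List Bool × List Bool)} {m m' : ℕ} (h : m ≤ m') :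
    Hlt (Hlt H m') m = Hlt H m := by
  ext p
  simp only [Hlt, Set.mem_ofPred_eq]
  constructor
  · rintro ⟨⟨h1, -⟩, h2⟩
    exact ⟨h1, h2⟩
  · rintro ⟨h1, h2⟩
    exact ⟨⟨h1, by omega⟩, h2⟩

theorem chi_LH_congr {H H' : Set (List Bool × List Bool)} {m : ℕ} (h : Hlt H m = Hlt H' m) :
    chi (LH H) m = chi (LH H') m := by
  refine chi_congr fun i hi => ?_
  have key : ∀ y, (str i, y) ∈ H ↔ (str i, y) ∈ H' := by
    intro y
    have h1 : (str i, y) ∈ Hlt H m ↔ (str i, y) ∈ Hlt H' m := by rw [h]
    simp only [Hlt, Set.mem_ofPred_eq, idx_str] at h1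
    constructor
    · intro h2
      exact (h1.1 ⟨h2, hi⟩).1
    · intro h2
      exact (h1.2 ⟨h2, hi⟩).1
  simp only [LH, Set.mem_ofPred_eq, key]

theorem Hlt_mono_eq {H H' : Set (List Bool × List Bool)} {m m' : ℕ} (h : Hlt H m' = Hlt H' m')
    (hm : m ≤ m') : Hlt H m = Hlt H' m := by
  rw [← Hlt_Hlt (H := H) hm, h, Hlt_Hlt hm]

end Pool.Agent.H610R2.Dim
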