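import Pool.Agent.H610R2.Dim.Block

/-!
The lengths of the blocks.
-/

namespace Pool.Agent.H610R2.Dim

open Filter
open Pool.Agent.H578R2

/-- the machine treated in block `j` -/
def es (j : ℕ) : ℕ := (Nat.unpair j).1

/-- the conditions on the start of block `j` -/
structure Ok (j a : ℕ) : Prop where
  k1 : 5 ≤ 2 ^ a - 1
  k2 : ∀ e ≤ j, ∀ m ≥ 2 ^ a - 1, 6 * (m + 1) * tb e (2 * m + 2) * ((m + 1) * (m + 2)) ≤
    2 ^ (2 * (str m).length ^ 2)
  k3 : ∀ e ≤ j, 2 * (15 / 16 : ℝ) ^ (2 ^ a) ≤ (1 / 2) ^ e / 100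
  k4 : ∀ e ≤ j, (1 : ℝ) / 2 ^ a ≤ (1 / 2) ^ e / 100
  k5 : 50 * tb (es j) (a ^ 2) ≤ 2 ^ (2 * a ^ 2)
  k6 : a ^ 2 + tb (es j) (a ^ 2) ≤ 2 ^ (a ^ 2) - 1
  k7 : ∀ e ≤ j, 2 * 2 ^ a + 2 + tb e (2 * 2 ^ a + 2) ≤ 2 ^ (a ^ 2) - 1

theorem pb_tb_lin (e : ℕ) : PB (fun m => tb e (2 * m + 2)) := by
  unfold tb
  exact ((((PB.const 2).mul PB.id).add (PB.const 2)).pow _).add (PB.const _)

theorem PB.le_str {f : ℕ → ℕ} (hf : PB f) : ∀ᶠ m in atTop, f m ≤ 2 ^ (2 * (str m).length ^ 2) := by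
  obtain ⟨k, hk⟩ := hf
  filter_upwards [eventually_ge_atTop (2 ^ (k + 1))] with m hm
  set l := (str m).length with hl
  have h1 : k + 1 ≤ l := by
    rw [hl, le_length_str]
    omega
  have h2 : m + 2 ≤ 2 ^ (l + 1) := by
    have : (str m).length < l + 1 := by omega
    rw [length_str_lt] at this
    omega
  calc f m ≤ (m + 2) ^ k := hk m
    _ ≤ (2 ^ (l + 1)) ^ k := Nat.pow_le_pow_left h2 k
    _ = 2 ^ ((l + 1) * k) := by rw [← pow_mul]
    _ ≤ 2 ^ (2 * l ^ 2) := by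
        refine Nat.pow_le_pow_right (by norm_num) ?_
        nlinarith

theorem PB.two_pow {f : ℕ → ℕ} (hf : PB f) : ∀ᶠ a in atTop, f (2 ^ a) ≤ 2 ^ (a ^ 2) - 1 := by
  obtain ⟨k, hk⟩ := hf
  filter_upwards [eventually_ge_atTop (k + 3)] with a ha
  have h2 : 2 ^ a + 2 ≤ 2 ^ (a + 2) := by
    rw [pow_add]
    have : 1 ≤ 2 ^ a := Nat.one_le_two_pow
    omega
  have h3 : f (2 ^ a) ≤ 2 ^ (a ^ 2 - 1) := by
    calc f (2 ^ a) ≤ (2 ^ a + 2) ^ k := hk _
      _ ≤ (2 ^ (a + 2)) ^ k := Nat.pow_le_pow_left h2 k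
      _ = 2 ^ ((a + 2) * k) := by rw [← pow_mul]
      _ ≤ 2 ^ (a ^ 2 - 1) := by
        refine Nat.pow_le_pow_right (by norm_num) ?_
        have : (a + 2) * k + 1 ≤ a ^ 2 := by nlinarith
        omega
  have h4 : 1 ≤ a ^ 2 := by nlinarith
  have h5 : 2 ^ (a ^ 2) = 2 * 2 ^ (a ^ 2 - 1) := by
    rw [← pow_succ']
    congr 1
    omega
  have h6 : 1 ≤ 2 ^ (a ^ 2 - 1) := Nat.one_le_two_pow
  omega

theorem tendsto_sq : Tendsto (fun a : ℕ => a ^ 2) atTop atTop :=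
  tendsto_pow_atTop (by norm_num)

theorem tendsto_two_pow : Tendsto (fun a : ℕ => 2 ^ a) atTop atTop :=
  tendsto_pow_atTop_atTop_of_one_lt (by norm_num)

theorem ev_ok (j : ℕ) : ∀ᶠ a in atTop, Ok j a := by
  have h1 : ∀ᶠ a : ℕ in atTop, 5 ≤ 2 ^ a - 1 := by
    filter_upwards [tendsto_two_pow.eventually_ge_atTop 6] with a ha
    omega
  have h2 : ∀ᶠ a : ℕ in atTop, ∀ e ≤ j, ∀ m ≥ 2 ^ a - 1,
      6 * (m + 1) * tb e (2 * m + 2) * ((m + 1) * (m + 2)) ≤ 2 ^ (2 * (str m).length ^ 2) := by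
    have h : ∀ e ∈ Finset.range (j + 1), ∀ᶠ a : ℕ in atTop, ∀ m ≥ 2 ^ a - 1,
        6 * (m + 1) * tb e (2 * m + 2) * ((m + 1) * (m + 2)) ≤ 2 ^ (2 * (str m).length ^ 2) := by
      intro e _
      have hpb : PB (fun m => 6 * (m + 1) * tb e (2 * m + 2) * ((m + 1) * (m + 2))) :=
        (((PB.const 6).mul (PB.id.add (PB.const 1))).mul (pb_tb_lin e)).mul
          ((PB.id.add (PB.const 1)).mul (PB.id.add (PB.const 2)))
      obtain ⟨M, hM⟩ := eventually_atTop.1 (PB.le_str hpb)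
      filter_upwards [tendsto_two_pow.eventually_ge_atTop (M + 1)] with a ha m hm
      exact hM m (by omega)
    rw [← Filter.eventually_all_finset] at h
    filter_upwards [h] with a ha e he
    exact ha e (Finset.mem_range.2 (by omega))
  have h3 : ∀ᶠ a : ℕ in atTop, ∀ e ≤ j, 2 * (15 / 16 : ℝ) ^ (2 ^ a) ≤ (1 / 2) ^ e / 100 := by
    have h : ∀ e ∈ Finset.range (j + 1), ∀ᶠ a : ℕ in atTop,
        2 * (15 / 16 : ℝ) ^ (2 ^ a) ≤ (1 / 2) ^ e / 100 := by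
      intro e _
      have ht : Tendsto (fun a : ℕ => 2 * (15 / 16 : ℝ) ^ (2 ^ a)) atTop (nhds (2 * 0)) :=
        ((tendsto_pow_atTop_nhds_zero_of_lt_one (by norm_num) (by norm_num)).comp
          tendsto_two_pow).const_mul 2
      rw [mul_zero] at ht
      exact ht.eventually_le_const (by positivity)
    rw [← Filter.eventually_all_finset] at h
    filter_upwards [h] with a ha e he
    exact ha e (Finset.mem_range.2 (by omega))
  have h4 : ∀ᶠ a : ℕ in atTop, ∀ e ≤ j, (1 : ℝ) / 2 ^ a ≤ (1 / 2) ^ e / 100 := by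
    have h : ∀ e ∈ Finset.range (j + 1), ∀ᶠ a : ℕ in atTop,
        (1 : ℝ) / 2 ^ a ≤ (1 / 2) ^ e / 100 := by
      intro e _
      have ht : Tendsto (fun a : ℕ => (1 : ℝ) / 2 ^ a) atTop (nhds 0) := by
        have := tendsto_pow_atTop_nhds_zero_of_lt_one (r := (1 / 2 : ℝ)) (by norm_num) (by norm_num)
        refine this.congr fun a => ?_
        rw [one_div, inv_pow, one_div]
      exact ht.eventually_le_const (by positivity)
    rw [← Filter.eventually_all_finset] at h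
    filter_upwards [h] with a ha e he
    exact ha e (Finset.mem_range.2 (by omega))
  have h5 : ∀ᶠ a : ℕ in atTop, 50 * tb (es j) (a ^ 2) ≤ 2 ^ (2 * a ^ 2) := by
    have hpb : PB (fun n => 50 * tb (es j) n) := (PB.const 50).mul (PB.tb _)
    filter_upwards [tendsto_sq.eventually hpb.eventually_lt] with a ha
    exact ha.le.trans (Nat.pow_le_pow_right (by norm_num) (by omega))
  have h6 : ∀ᶠ a : ℕ in atTop, a ^ 2 + tb (es j) (a ^ 2) ≤ 2 ^ (a ^ 2) - 1 := by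
    have hpb : PB (fun n => n + tb (es j) n) := PB.id.add (PB.tb _)
    filter_upwards [tendsto_sq.eventually hpb.eventually_lt] with a ha
    omega
  have h7 : ∀ᶠ a : ℕ in atTop, ∀ e ≤ j, 2 * 2 ^ a + 2 + tb e (2 * 2 ^ a + 2) ≤ 2 ^ (a ^ 2) - 1 := by
    have h : ∀ e ∈ Finset.range (j + 1), ∀ᶠ a : ℕ in atTop,
        2 * 2 ^ a + 2 + tb e (2 * 2 ^ a + 2) ≤ 2 ^ (a ^ 2) - 1 := by
      intro e _
      have hpb : PB (fun m => 2 * m + 2 + tb e (2 * m + 2)) :=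
        (((PB.const 2).mul PB.id).add (PB.const 2)).add (pb_tb_lin e)
      exact PB.two_pow hpb
    rw [← Filter.eventually_all_finset] at h
    filter_upwards [h] with a ha e he
    exact ha e (Finset.mem_range.2 (by omega))
  filter_upwards [h1, h2, h3, h4, h5, h6, h7] with a a1 a2 a3 a4 a5 a6 a7
  exact ⟨a1, a2, a3, a4, a5, a6, a7⟩

theorem exists_lengths : ∃ a : ℕ → ℕ, (∀ j, Ok j (a j)) ∧
    ∀ j, a j ^ 2 + tb (es j) (a j ^ 2) < a (j + 1) := by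
  have h : ∀ j x : ℕ, ∃ y, Ok (j + 1) y ∧ x ^ 2 + tb (es j) (x ^ 2) < y := fun j x =>
    ((ev_ok (j + 1)).and (eventually_gt_atTop _)).exists
  choose f hf1 hf2 using h
  obtain ⟨a0, ha0⟩ := (ev_ok 0).exists
  let a : ℕ → ℕ := fun j => Nat.rec a0 (fun j x => f j x) j
  refine ⟨a, fun j => ?_, fun j => hf2 j (a j)⟩
  cases j with
  | zero => exact ha0
  | succ j => exact hf1 j (a j)

end Pool.Agent.H610R2.Dim
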