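import Pool.Agent.H610R2.Dim.Runs

/-!
Sampling: products of finite sets, resampling one coordinate.
-/

namespace Pool.Agent.H610R2.Dim

open Finset

set_option linter.unusedSectionVars false

section resample

variable {ι : Type} [Fintype ι] [DecidableEq ι] {Z : ι → Type} [∀ i, Fintype (Z i)]

/-- exchange one coordinate -/
def swp (i : ι) (p : (∀ i, Z i) × Z i) : (∀ i, Z i) × Z i := (Function.update p.1 i p.2, p.1 i)

theorem swp_inv (i : ι) : Function.Involutive (swp (Z := Z) i) := by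
  rintro ⟨ω, u⟩
  simp only [swp, Function.update_self, Function.update_idem, Function.update_eq_self]

theorem resample (i : ι) (f : (∀ i, Z i) → ℝ) :
    ∑ ω, ∑ u : Z i, f (Function.update ω i u) = (Fintype.card (Z i) : ℝ) * ∑ ω, f ω := by
  have h1 : ∑ p : (∀ i, Z i) × Z i, f (swp i p).1 = ∑ p : (∀ i, Z i) × Z i, f p.1 :=
    (Equiv.sum_comp (swp_inv i).toPerm (fun p => f p.1))
  rw [Fintype.sum_prod_type, Fintype.sum_prod_type] at h1
  simp only [swp] at h1
  rw [h1, Finset.mul_sum]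
  simp

/-- exchange one coordinate in two samples -/
def swp2 (i : ι) (p : ((∀ i, Z i) × (∀ i, Z i)) × (Z i × Z i)) :
    ((∀ i, Z i) × (∀ i, Z i)) × (Z i × Z i) :=
  ((Function.update p.1.1 i p.2.1, Function.update p.1.2 i p.2.2), (p.1.1 i, p.1.2 i))

theorem swp2_inv (i : ι) : Function.Involutive (swp2 (Z := Z) i) := by
  rintro ⟨⟨ω, ω'⟩, u, v⟩
  simp only [swp2, Function.update_self, Function.update_idem, Function.update_eq_self]

/-- change one coordinate in two samples -/
def upd (ω : (∀ i, Z i) × (∀ i, Z i)) (i : ι) (p : Z i × Z i) : (∀ i, Z i) × (∀ i, Z i) :=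
  (Function.update ω.1 i p.1, Function.update ω.2 i p.2)

theorem resample2 (i : ι) (f : (∀ i, Z i) × (∀ i, Z i) → ℝ) :
    ∑ ω, ∑ p : Z i × Z i, f (upd ω i p) = (Fintype.card (Z i) : ℝ) ^ 2 * ∑ ω, f ω := by
  have h1 : ∑ p : ((∀ i, Z i) × (∀ i, Z i)) × (Z i × Z i), f (swp2 i p).1 =
      ∑ p : ((∀ i, Z i) × (∀ i, Z i)) × (Z i × Z i), f p.1 :=
    (Equiv.sum_comp (swp2_inv i).toPerm (fun p => f p.1))
  have h2 : ∑ p : ((∀ i, Z i) × (∀ i, Z i)) × (Z i × Z i), f (swp2 i p).1 =
      ∑ ω, ∑ p : Z i × Z i, f (upd ω i p) := Fintype.sum_prod_type _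
  have h3 : ∑ p : ((∀ i, Z i) × (∀ i, Z i)) × (Z i × Z i), f p.1 =
      ∑ ω, ∑ _p : Z i × Z i, f ω := Fintype.sum_prod_type _
  rw [← h2, h1, h3, Finset.mul_sum]
  refine Finset.sum_congr rfl fun ω _ => ?_
  rw [Finset.sum_const, Finset.card_univ, Fintype.card_prod, nsmul_eq_mul]
  push_cast
  ring

theorem resample2_le (i : ι) (f g : (∀ i, Z i) × (∀ i, Z i) → ℝ) (hZ : 0 < Fintype.card (Z i))
    (h : ∀ ω, ∑ p : Z i × Z i, f (upd ω i p) ≤ (Fintype.card (Z i) : ℝ) ^ 2 * g ω) :
    ∑ ω, f ω ≤ ∑ ω, g ω := by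
  have h1 := resample2 i f
  have h2 : ∑ ω, ∑ p : Z i × Z i, f (upd ω i p) ≤ (Fintype.card (Z i) : ℝ) ^ 2 * ∑ ω, g ω := by
    rw [Finset.mul_sum]
    exact Finset.sum_le_sum fun ω _ => h ω
  rw [h1] at h2
  have h3 : (0 : ℝ) < (Fintype.card (Z i) : ℝ) ^ 2 := by positivity
  exact le_of_mul_le_mul_left h2 h3

end resample

theorem sum_fst {Z : Type} [Fintype Z] (g : Z → ℝ) :
    ∑ p : Z × Z, g p.1 = (Fintype.card Z : ℝ) * ∑ u, g u := by
  have h : ∑ p : Z × Z, g p.1 = ∑ u : Z, ∑ _v : Z, g u := Fintype.sum_prod_type _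
  rw [h, Finset.mul_sum]
  refine Finset.sum_congr rfl fun u _ => ?_
  rw [Finset.sum_const, Finset.card_univ, nsmul_eq_mul]

theorem sum_snd {Z : Type} [Fintype Z] (g : Z → ℝ) :
    ∑ p : Z × Z, g p.2 = (Fintype.card Z : ℝ) * ∑ u, g u := by
  have h : ∑ p : Z × Z, g p.2 = ∑ _u : Z, ∑ v : Z, g v := Fintype.sum_prod_type _
  rw [h, Finset.sum_const, Finset.card_univ, nsmul_eq_mul]

/-- Markov's inequality -/
theorem markov {Ω : Type} [Fintype Ω] (f : Ω → ℝ) (hf : ∀ ω, 0 ≤ f ω) (c b : ℝ) (hc : 0 < c)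
    (h : ∑ ω, f ω ≤ c * b) (p : Ω → Prop) [DecidablePred p] (hp : ∀ ω, p ω → c ≤ f ω) :
    ((univ.filter p).card : ℝ) ≤ b := by
  have h1 : c * ((univ.filter p).card : ℝ) ≤ ∑ ω, f ω := by
    calc c * ((univ.filter p).card : ℝ) = ∑ ω ∈ univ.filter p, c := by
          rw [Finset.sum_const, nsmul_eq_mul, mul_comm]
      _ ≤ ∑ ω ∈ univ.filter p, f ω :=
          Finset.sum_le_sum fun ω hω => hp ω (Finset.mem_filter.1 hω).2
      _ ≤ ∑ ω, f ω := Finset.sum_le_sum_of_subset_of_nonneg (Finset.subset_univ _)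
          (fun ω _ _ => hf ω)
  have h2 := h1.trans h
  exact le_of_mul_le_mul_left h2 hc

/-- the possible values of the data of the string number `m`: a bit and a potential witness -/
abbrev ZZ (m : ℕ) : Type := Bool × (Fin (2 * (str m).length ^ 2) → Bool)

theorem card_ZZ (m : ℕ) : Fintype.card (ZZ m) = 2 * 2 ^ (2 * (str m).length ^ 2) := by
  simp

/-- the sample space of a block -/
abbrev Sp (m0 N : ℕ) : Type := ∀ i : Fin N, ZZ (m0 + i)

/-- the hidden pairs given by a sample -/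
def A1 {m0 N : ℕ} (ω : Sp m0 N) : Set (List Bool × List Bool) :=
  {p | ∃ i : Fin N, (ω i).1 = true ∧ p = (str (m0 + i), List.ofFn (ω i).2)}

/-- the hidden pairs, given by the past and two samples of which the second is used only in
blocks of the type `true` -/
def Hs {m0 N : ℕ} (τ : Bool) (past : Set (List Bool × List Bool)) (ω : Sp m0 N × Sp m0 N) :
    Set (List Bool × List Bool) :=
  past ∪ A1 ω.1 ∪ {p | τ = true ∧ p ∈ A1 ω.2}

/-- the bit of a string -/
def fb (τ : Bool) {m : ℕ} (p : ZZ m × ZZ m) : Bool := p.1.1 || (τ && p.2.1)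

theorem sum_fb (τ : Bool) (m : ℕ) (F : Bool → ℝ) (hF : ∀ b, 0 ≤ F b) :
    ∑ p : ZZ m × ZZ m, F (fb τ p) ≤
      (Fintype.card (ZZ m) : ℝ) ^ 2 * (3 / 4 * (F false + F true)) := by
  have h0 := hF false
  have h1 := hF true
  set K : ℝ := 2 ^ (2 * (str m).length ^ 2) with hK
  have hKpos : 0 < K := by positivity
  have hcard : (Fintype.card (ZZ m) : ℝ) = 2 * K := by
    rw [card_ZZ]
    push_cast
    rfl
  have key : ∑ p : ZZ m × ZZ m, F (fb τ p) =
      K ^ 2 * (F (false || (τ && false)) + F (false || (τ && true)) + F (true || (τ && false)) +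
        F (true || (τ && true))) := by
    rw [Fintype.sum_prod_type]
    simp only [Fintype.sum_prod_type (α₁ := Bool), fb, Fintype.sum_bool, Finset.sum_const,
      Finset.card_univ, nsmul_eq_mul, Fintype.card_pi, Fintype.card_bool, Finset.prod_const,
      Fintype.card_fin]
    push_cast
    rw [← hK]
    ring
  rw [key, hcard]
  have hK2 : 0 ≤ K ^ 2 := by positivity
  cases τ
  · simp only [Bool.or_false, Bool.false_and]
    nlinarith [mul_nonneg hK2 h0, mul_nonneg hK2 h1]
  · simp only [Bool.or_false, Bool.and_false, Bool.and_true, Bool.false_or, Bool.true_or]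
    nlinarith [mul_nonneg hK2 h0, mul_nonneg hK2 h1]

/-- few samples hit a given set of strings -/
theorem hit_card {m : ℕ} (U : Finset (List Bool)) :
    ((univ.filter fun u : ZZ m => hc (List.ofFn u.2) (str m) ∈ U).card : ℝ) ≤ 2 * U.card := by
  have h : (univ.filter fun u : ZZ m => hc (List.ofFn u.2) (str m) ∈ U).card ≤
      ((univ : Finset Bool) ×ˢ U).card := by
    refine Finset.card_le_card_of_injOn (fun u => (u.1, hc (List.ofFn u.2) (str m))) ?_ ?_
    · intro u hu
      rw [Finset.coe_filter] at hu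
      simp only [Finset.coe_product, Set.mem_prod, Finset.mem_coe, Finset.mem_univ, true_and]
      exact hu.2
    · intro u _ v _ huv
      simp only [Prod.mk.injEq] at huv
      have h2 := (hc_inj huv.2).1
      exact Prod.ext huv.1 (List.ofFn_injective h2)
  rw [Finset.card_product, Finset.card_univ, Fintype.card_bool] at h
  exact_mod_cast h

end Pool.Agent.H610R2.Dim
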