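import Pool.Agent.H610R2.Dim.Prob

/-!
The values of a computed gale along the sampled sequence.
-/

namespace Pool.Agent.H610R2.Dim

open Finset

/-- hidden pairs -/
abbrev HP : Type := Set (List Bool × List Bool)

/-- the value of machine `e` on the prefix of length `m` -/
noncomputable def Dv (e : ℕ) (β : Bet) (H : HP) (m : ℕ) : ℝ :=
  ((val e (inp m (chi (LH H) m)) (orc (Hlt H m) β) : ℚ) : ℝ)

/-- the value of machine `e` on an extension by one bit of the prefix of length `m` -/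
noncomputable def Dvb (e : ℕ) (β : Bet) (H : HP) (m : ℕ) (b : Bool) : ℝ :=
  ((val e (inp m (chi (LH H) m ++ [b])) (orc (Hlt H m) β) : ℚ) : ℝ)

def Rel (e : ℕ) (β : Bet) (H : HP) (m : ℕ) : Prop :=
  Dvb e β H m false + Dvb e β H m true ≤ 5 / 4 * Dv e β H m + 4 * (1 / 2) ^ m ∧
    ∀ b, 0 ≤ Dvb e β H m b + (1 / 2) ^ m

open Classical in
def Tr (e : ℕ) (β : Bet) (H : HP) (m : ℕ) : Prop :=
  Dv e β H (m + 1) ≤ Dvb e β H m (decide (str m ∈ LH H)) + 2 * (1 / 2) ^ m

def Gd (e : ℕ) (β : Bet) (m0 : ℕ) (H : HP) (m : ℕ) : Prop :=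
  ∀ m', m0 ≤ m' → m' < m → Rel e β H m' ∧ Tr e β H m'

open Classical in
noncomputable def V (e : ℕ) (β : Bet) (m0 : ℕ) (H : HP) (m : ℕ) : ℝ :=
  if Gd e β m0 H m ∧ 0 ≤ Dv e β H m + (1 / 2) ^ m then Dv e β H m + (1 / 2) ^ m else 0

theorem V_nonneg (e : ℕ) (β : Bet) (m0 : ℕ) (H : HP) (m : ℕ) : 0 ≤ V e β m0 H m := by
  unfold V
  split_ifs with h
  · exact h.2
  · exact le_rfl

theorem LH_mem_congr {H H' : HP} {m : ℕ} (h : Hlt H (m + 1) = Hlt H' (m + 1)) :
    str m ∈ LH H ↔ str m ∈ LH H' := by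
  have key : ∀ y, (str m, y) ∈ H ↔ (str m, y) ∈ H' := by
    intro y
    have h1 : (str m, y) ∈ Hlt H (m + 1) ↔ (str m, y) ∈ Hlt H' (m + 1) := by rw [h]
    simp only [Hlt, Set.mem_ofPred_eq, idx_str] at h1
    constructor
    · intro h2
      exact (h1.1 ⟨h2, by omega⟩).1
    · intro h2
      exact (h1.2 ⟨h2, by omega⟩).1
  simp only [LH, Set.mem_ofPred_eq, key]

section congr

variable {e : ℕ} {β : Bet} {H H' : HP} {m : ℕ}

theorem Dv_congr (h : Hlt H m = Hlt H' m) : Dv e β H m = Dv e β H' m := by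
  rw [Dv, Dv, h, chi_LH_congr h]

theorem Dvb_congr (h : Hlt H m = Hlt H' m) (b : Bool) : Dvb e β H m b = Dvb e β H' m b := by
  rw [Dvb, Dvb, h, chi_LH_congr h]

theorem Rel_congr (h : Hlt H m = Hlt H' m) : Rel e β H m ↔ Rel e β H' m := by
  simp only [Rel, Dv_congr h, Dvb_congr h]

theorem Tr_congr (h : Hlt H (m + 1) = Hlt H' (m + 1)) : Tr e β H m ↔ Tr e β H' m := by
  classical
  have h1 := Hlt_mono_eq h (Nat.le_succ m)
  have h2 : decide (str m ∈ LH H) = decide (str m ∈ LH H') := decide_eq_decide.2 (LH_mem_congr h)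
  unfold Tr
  rw [Dv_congr h, h2, Dvb_congr h1]

theorem Gd_congr {m0 : ℕ} (h : Hlt H m = Hlt H' m) : Gd e β m0 H m ↔ Gd e β m0 H' m := by
  unfold Gd
  refine forall_congr' fun m' => forall_congr' fun _ => forall_congr' fun h' => ?_
  rw [Rel_congr (Hlt_mono_eq h (by omega)), Tr_congr (Hlt_mono_eq h (by omega))]

theorem V_congr {m0 : ℕ} (h : Hlt H m = Hlt H' m) : V e β m0 H m = V e β m0 H' m := by
  classical
  have h1 : Gd e β m0 H m ↔ Gd e β m0 H' m := Gd_congr h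
  unfold V
  rw [Dv_congr h]
  by_cases h2 : Gd e β m0 H' m ∧ 0 ≤ Dv e β H' m + (1 / 2) ^ m
  · rw [if_pos h2, if_pos ⟨h1.2 h2.1, h2.2⟩]
  · rw [if_neg h2, if_neg fun h3 => h2 ⟨h1.1 h3.1, h3.2⟩]

end congr

open Classical in
theorem V_step {e : ℕ} {β : Bet} {m0 m : ℕ} {H H' : HP} (h : Hlt H' m = Hlt H m) (hm : m0 ≤ m) :
    V e β m0 H' (m + 1) ≤ (if Gd e β m0 H m ∧ Rel e β H m then 1 else 0) *
      (Dvb e β H m (decide (str m ∈ LH H')) + 3 * (1 / 2) ^ m) := by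
  have hε : (0 : ℝ) < (1 / 2) ^ m := by positivity
  have hε2 : (1 / 2 : ℝ) ^ (m + 1) = (1 / 2) ^ m / 2 := by rw [pow_succ]; ring
  by_cases hc : Gd e β m0 H m ∧ Rel e β H m
  · rw [if_pos hc, one_mul]
    have hb := hc.2.2 (decide (str m ∈ LH H'))
    unfold V
    split_ifs with hv
    · have ht := (hv.1 m hm (Nat.lt_succ_self m)).2
      rw [Tr, Dvb_congr h] at ht
      rw [hε2]
      linarith
    · linarith
  · rw [if_neg hc, zero_mul]
    have : ¬ (Gd e β m0 H' (m + 1) ∧ 0 ≤ Dv e β H' (m + 1) + (1 / 2) ^ (m + 1)) := by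
      rintro ⟨hv, -⟩
      apply hc
      refine ⟨?_, ?_⟩
      · rw [← Gd_congr h]
        exact fun m' h1 h2 => hv m' h1 (by omega)
      · rw [← Rel_congr h]
        exact (hv m hm (Nat.lt_succ_self m)).1
    unfold V
    rw [if_neg this]

open Classical in
theorem V_avg {e : ℕ} {β : Bet} {m0 m : ℕ} {H : HP} :
    3 / 4 * ((if Gd e β m0 H m ∧ Rel e β H m then 1 else 0) *
        (Dvb e β H m false + 3 * (1 / 2) ^ m) +
      (if Gd e β m0 H m ∧ Rel e β H m then 1 else 0) *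
        (Dvb e β H m true + 3 * (1 / 2) ^ m)) ≤
    15 / 16 * V e β m0 H m + 8 * (1 / 2) ^ m := by
  have hε : (0 : ℝ) < (1 / 2) ^ m := by positivity
  by_cases hc : Gd e β m0 H m ∧ Rel e β H m
  · simp only [if_pos hc, one_mul]
    have h1 := hc.2.1
    unfold V
    split_ifs with hv
    · linarith
    · have h2 : Dv e β H m + (1 / 2) ^ m < 0 := by
        by_contra h3
        exact hv ⟨hc.1, not_lt.1 h3⟩
      linarith
  · simp only [if_neg hc, zero_mul]
    have := V_nonneg e β m0 H m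
    linarith

section sample

variable {m0 N : ℕ} {τ : Bool} {past : HP}

theorem mem_A1 (ω : Sp m0 N) (i : Fin N) (y : List Bool) :
    (str (m0 + i), y) ∈ A1 ω ↔ (ω i).1 = true ∧ y = List.ofFn (ω i).2 := by
  constructor
  · rintro ⟨i', h1, h2⟩
    rw [Prod.mk.injEq] at h2
    have h3 := str_inj h2.1
    have h4 : i = i' := Fin.ext (by omega)
    subst h4
    exact ⟨h1, h2.2⟩
  · rintro ⟨h1, h2⟩
    exact ⟨i, h1, by rw [h2]⟩

theorem idx_A1 {ω : Sp m0 N} {p : List Bool × List Bool} (h : p ∈ A1 ω) :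
    ∃ i : Fin N, p.1 = str (m0 + i) ∧ idx p.1 = m0 + i := by
  obtain ⟨i, -, h2⟩ := h
  refine ⟨i, by rw [h2], by rw [h2, idx_str]⟩

theorem Hlt_upd (ω : Sp m0 N × Sp m0 N) (i : Fin N) (p : ZZ (m0 + i) × ZZ (m0 + i)) :
    Hlt (Hs τ past (upd ω i p)) (m0 + i) = Hlt (Hs τ past ω) (m0 + i) := by
  have key : ∀ (ω : Sp m0 N) (u : ZZ (m0 + i)) (q : List Bool × List Bool),
      idx q.1 < m0 + i → (q ∈ A1 (Function.update ω i u) ↔ q ∈ A1 ω) := by
    intro ω u q hq
    constructor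
    · rintro ⟨i', h1, h2⟩
      have h3 : i' ≠ i := by
        rintro rfl
        rw [h2, idx_str] at hq
        omega
      rw [Function.update_of_ne h3] at h1 h2
      exact ⟨i', h1, h2⟩
    · rintro ⟨i', h1, h2⟩
      have h3 : i' ≠ i := by
        rintro rfl
        rw [h2, idx_str] at hq
        omega
      refine ⟨i', ?_, ?_⟩
      · rw [Function.update_of_ne h3]
        exact h1
      · rw [Function.update_of_ne h3]
        exact h2
  ext q
  simp only [Hlt, Hs, Set.mem_ofPred_eq, Set.mem_union, upd]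
  constructor
  · rintro ⟨h1, h2⟩
    rw [key _ _ _ h2, key _ _ _ h2] at h1
    exact ⟨h1, h2⟩
  · rintro ⟨h1, h2⟩
    rw [key _ _ _ h2, key _ _ _ h2]
    exact ⟨h1, h2⟩

theorem ofFn_length (m : ℕ) (u : ZZ m) : (List.ofFn u.2).length = 2 * (str m).length ^ 2 := by
  rw [List.length_ofFn]

open Classical in
theorem mem_LH_upd (hpast : ∀ q ∈ past, idx q.1 < m0) (ω : Sp m0 N × Sp m0 N) (i : Fin N)
    (p : ZZ (m0 + i) × ZZ (m0 + i)) :
    decide (str (m0 + i) ∈ LH (Hs τ past (upd ω i p))) = fb τ p := by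
  have h1 : ∀ y, (str (m0 + i), y) ∉ past := by
    intro y hy
    have := hpast _ hy
    rw [idx_str] at this
    omega
  rw [Bool.eq_iff_iff, decide_eq_true_iff, fb, Bool.or_eq_true, Bool.and_eq_true]
  constructor
  · rintro ⟨y, -, hy⟩
    rcases hy with (hy | hy) | hy
    · exact absurd hy (h1 y)
    · simp only [upd, mem_A1, Function.update_self] at hy
      exact Or.inl hy.1
    · obtain ⟨h2, hy⟩ := hy
      simp only [upd, mem_A1, Function.update_self] at hy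
      exact Or.inr ⟨h2, hy.1⟩
  · rintro (h | ⟨h, h'⟩)
    · refine ⟨List.ofFn p.1.2, ofFn_length _ _, Or.inl (Or.inr ?_)⟩
      simp only [upd, mem_A1, Function.update_self]
      exact ⟨h, trivial⟩
    · refine ⟨List.ofFn p.2.2, ofFn_length _ _, Or.inr ⟨h, ?_⟩⟩
      simp only [upd, mem_A1, Function.update_self]
      exact ⟨h', trivial⟩

theorem sum_V_step (e : ℕ) (β : Bet) (hpast : ∀ q ∈ past, idx q.1 < m0) (i : Fin N) :
    ∑ ω : Sp m0 N × Sp m0 N, V e β m0 (Hs τ past ω) (m0 + i + 1) ≤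
      ∑ ω : Sp m0 N × Sp m0 N, (15 / 16 * V e β m0 (Hs τ past ω) (m0 + i) +
        8 * (1 / 2) ^ (m0 + (i : ℕ))) := by
  classical
  refine resample2_le i _ _ Fintype.card_pos fun ω => ?_
  set H := Hs τ past ω
  set F : Bool → ℝ := fun b => (if Gd e β m0 H (m0 + i) ∧ Rel e β H (m0 + i) then 1 else 0) *
      (Dvb e β H (m0 + i) b + 3 * (1 / 2) ^ (m0 + (i : ℕ))) with hF
  have hFn : ∀ b, 0 ≤ F b := by
    intro b
    rw [hF]
    simp only
    split_ifs with h
    · have := h.2.2 b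
      have hε : (0 : ℝ) < (1 / 2) ^ (m0 + (i : ℕ)) := by positivity
      linarith
    · simp
  calc ∑ p : ZZ (m0 + i) × ZZ (m0 + i), V e β m0 (Hs τ past (upd ω i p)) (m0 + i + 1)
      ≤ ∑ p : ZZ (m0 + i) × ZZ (m0 + i), F (fb τ p) := by
        refine Finset.sum_le_sum fun p _ => ?_
        have := V_step (e := e) (β := β) (m0 := m0) (Hlt_upd (τ := τ) (past := past) ω i p)
          (Nat.le_add_right m0 i)
        rw [mem_LH_upd hpast] at this
        exact this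
    _ ≤ (Fintype.card (ZZ (m0 + i)) : ℝ) ^ 2 * (3 / 4 * (F false + F true)) := sum_fb τ _ F hFn
    _ ≤ _ := mul_le_mul_of_nonneg_left V_avg (by positivity)

theorem Hlt_Hs (ω : Sp m0 N × Sp m0 N) :
    Hlt (Hs τ past ω) m0 = Hlt past m0 := by
  ext q
  simp only [Hlt, Hs, Set.mem_ofPred_eq, Set.mem_union]
  constructor
  · rintro ⟨(h | h) | h, h2⟩
    · exact ⟨h, h2⟩
    · obtain ⟨i, -, h3⟩ := idx_A1 h
      omega
    · obtain ⟨i, -, h3⟩ := idx_A1 h.2
      omega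
  · rintro ⟨h, h2⟩
    exact ⟨Or.inl (Or.inl h), h2⟩

theorem sum_V (e : ℕ) (β : Bet) (hpast : ∀ q ∈ past, idx q.1 < m0) (hm0 : 5 ≤ m0) :
    ∀ k ≤ N, ∑ ω : Sp m0 N × Sp m0 N, V e β m0 (Hs τ past ω) (m0 + k) +
      20 * (1 / 2) ^ (m0 + k) * (Fintype.card (Sp m0 N × Sp m0 N) : ℝ) ≤
      (15 / 16) ^ k * (V e β m0 past m0 + 1) * (Fintype.card (Sp m0 N × Sp m0 N) : ℝ) := by
  intro k
  have hcard : (0 : ℝ) ≤ (Fintype.card (Sp m0 N × Sp m0 N) : ℝ) := by positivity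
  induction k with
  | zero =>
    intro _
    have h1 : ∀ ω : Sp m0 N × Sp m0 N, V e β m0 (Hs τ past ω) m0 = V e β m0 past m0 :=
      fun ω => V_congr (Hlt_Hs ω)
    simp only [add_zero, h1, Finset.sum_const, Finset.card_univ, nsmul_eq_mul, pow_zero, one_mul]
    have h2 : (20 : ℝ) * (1 / 2) ^ m0 ≤ 1 := by
      have h3 : (1 / 2 : ℝ) ^ m0 ≤ (1 / 2) ^ 5 :=
        pow_le_pow_of_le_one (by norm_num) (by norm_num) hm0
      have h4 : (20 : ℝ) * (1 / 2) ^ 5 ≤ 1 := by norm_num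
      linarith
    nlinarith
  | succ k ih =>
    intro hk
    have h1 := ih (by omega)
    have h2 := sum_V_step (τ := τ) e β hpast (⟨k, by omega⟩ : Fin N)
    simp only at h2
    rw [Finset.sum_add_distrib, ← Finset.mul_sum, Finset.sum_const, Finset.card_univ,
      nsmul_eq_mul] at h2
    have h3 : m0 + (k + 1) = m0 + k + 1 := by ring
    rw [h3, pow_succ (15 / 16 : ℝ) k, pow_succ (1 / 2 : ℝ) (m0 + k)]
    set S' := ∑ ω : Sp m0 N × Sp m0 N, V e β m0 (Hs τ past ω) (m0 + k + 1)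
    set S := ∑ ω : Sp m0 N × Sp m0 N, V e β m0 (Hs τ past ω) (m0 + k)
    set c := (Fintype.card (Sp m0 N × Sp m0 N) : ℝ)
    set ε := (1 / 2 : ℝ) ^ (m0 + k)
    have hε : 0 ≤ ε * c := by positivity
    have h4 : (15 / 16 : ℝ) ^ k * (15 / 16) * (V e β m0 past m0 + 1) * c =
      15 / 16 * ((15 / 16) ^ k * (V e β m0 past m0 + 1) * c) := by ring
    rw [h4]
    nlinarith

open Classical in
/-- the samples for which the values of machine `e` grow too much -/
noncomputable def badV (e : ℕ) (β : Bet) (m0 N : ℕ) (τ : Bool) (past : HP) (C : ℝ) :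
    Finset (Sp m0 N × Sp m0 N) :=
  univ.filter fun ω => (∃ k, 1 ≤ k ∧ k ≤ N ∧
    C * (V e β m0 past m0 + 1) < V e β m0 (Hs τ past ω) (m0 + k)) ∨
    (V e β m0 past m0 + 1) / 2 < V e β m0 (Hs τ past ω) (m0 + N)

theorem card_badV (e : ℕ) (β : Bet) (hpast : ∀ q ∈ past, idx q.1 < m0) (hm0 : 5 ≤ m0)
    (C : ℝ) (hC : 0 < C) :
    ((badV e β m0 N τ past C).card : ℝ) ≤
      (15 / C + 2 * (15 / 16) ^ N) * (Fintype.card (Sp m0 N × Sp m0 N) : ℝ) := by
  classical
  set c := (Fintype.card (Sp m0 N × Sp m0 N) : ℝ) with hc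
  have hcard : (0 : ℝ) ≤ c := by positivity
  have hV0 : 0 ≤ V e β m0 past m0 := V_nonneg _ _ _ _ _
  have hW : 0 < V e β m0 past m0 + 1 := by linarith
  set W := V e β m0 past m0 + 1 with hWd
  have hsum : ∀ k ≤ N, ∑ ω : Sp m0 N × Sp m0 N, V e β m0 (Hs τ past ω) (m0 + k) ≤
      (15 / 16) ^ k * W * c := by
    intro k hk
    have h1 := sum_V (τ := τ) e β hpast hm0 k hk
    have h2 : (0 : ℝ) ≤ 20 * (1 / 2) ^ (m0 + k) * c := by positivity
    linarith
  -- the events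
  have h1 : ∀ k ≤ N, ((univ.filter fun ω : Sp m0 N × Sp m0 N =>
      C * W < V e β m0 (Hs τ past ω) (m0 + k)).card : ℝ) ≤ (15 / 16) ^ k / C * c := by
    intro k hk
    refine markov (fun ω => V e β m0 (Hs τ past ω) (m0 + k)) (fun ω => V_nonneg _ _ _ _ _)
      (C * W) _ (by positivity) ?_ _ (fun ω hω => hω.le)
    refine (hsum k hk).trans (le_of_eq ?_)
    field_simp
  have h2 : ((univ.filter fun ω : Sp m0 N × Sp m0 N =>
      W / 2 < V e β m0 (Hs τ past ω) (m0 + N)).card : ℝ) ≤ 2 * (15 / 16) ^ N * c := by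
    refine markov (fun ω => V e β m0 (Hs τ past ω) (m0 + N)) (fun ω => V_nonneg _ _ _ _ _)
      (W / 2) _ (by positivity) ?_ _ (fun ω hω => hω.le)
    refine (hsum N le_rfl).trans (le_of_eq ?_)
    ring
  have h3 : badV e β m0 N τ past C ⊆
      ((Finset.Icc 1 N).biUnion fun k => univ.filter fun ω : Sp m0 N × Sp m0 N =>
        C * W < V e β m0 (Hs τ past ω) (m0 + k)) ∪
      (univ.filter fun ω : Sp m0 N × Sp m0 N => W / 2 < V e β m0 (Hs τ past ω) (m0 + N)) := by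
    intro ω hω
    rw [badV, Finset.mem_filter] at hω
    rw [Finset.mem_union, Finset.mem_biUnion, Finset.mem_filter]
    rcases hω.2 with ⟨k, hk1, hk2, hk3⟩ | h
    · exact Or.inl ⟨k, Finset.mem_Icc.2 ⟨hk1, hk2⟩, Finset.mem_filter.2 ⟨Finset.mem_univ _, hk3⟩⟩
    · exact Or.inr ⟨Finset.mem_univ _, h⟩
  have h4 : ∑ k ∈ Finset.Icc 1 N, (15 / 16 : ℝ) ^ k ≤ 15 := by
    have h5 : ∀ n : ℕ, ∑ k ∈ Finset.Icc 1 n, (15 / 16 : ℝ) ^ k = 15 - 15 * (15 / 16) ^ n := by
      intro n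
      induction n with
      | zero => simp
      | succ n ih =>
        rw [Finset.sum_Icc_succ_top (by omega), ih, pow_succ]
        ring
    rw [h5]
    have : (0 : ℝ) ≤ (15 / 16) ^ N := by positivity
    linarith
  calc ((badV e β m0 N τ past C).card : ℝ)
      ≤ ((((Finset.Icc 1 N).biUnion fun k => univ.filter fun ω : Sp m0 N × Sp m0 N =>
        C * W < V e β m0 (Hs τ past ω) (m0 + k)) ∪
      (univ.filter fun ω : Sp m0 N × Sp m0 N =>
        W / 2 < V e β m0 (Hs τ past ω) (m0 + N))).card : ℝ) := by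
        exact_mod_cast Finset.card_le_card h3
    _ ≤ (((Finset.Icc 1 N).biUnion fun k => univ.filter fun ω : Sp m0 N × Sp m0 N =>
        C * W < V e β m0 (Hs τ past ω) (m0 + k)).card : ℝ) +
      ((univ.filter fun ω : Sp m0 N × Sp m0 N =>
        W / 2 < V e β m0 (Hs τ past ω) (m0 + N)).card : ℝ) := by
        exact_mod_cast Finset.card_union_le _ _
    _ ≤ ∑ k ∈ Finset.Icc 1 N, (15 / 16) ^ k / C * c + 2 * (15 / 16) ^ N * c := by
        refine add_le_add ?_ h2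
        calc (((Finset.Icc 1 N).biUnion fun k => univ.filter fun ω : Sp m0 N × Sp m0 N =>
              C * W < V e β m0 (Hs τ past ω) (m0 + k)).card : ℝ)
            ≤ ∑ k ∈ Finset.Icc 1 N, ((univ.filter fun ω : Sp m0 N × Sp m0 N =>
              C * W < V e β m0 (Hs τ past ω) (m0 + k)).card : ℝ) := by
              exact_mod_cast Finset.card_biUnion_le
          _ ≤ _ := Finset.sum_le_sum fun k hk => h1 k (Finset.mem_Icc.1 hk).2
    _ = (∑ k ∈ Finset.Icc 1 N, (15 / 16 : ℝ) ^ k) / C * c + 2 * (15 / 16) ^ N * c := by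
        rw [Finset.sum_div, Finset.sum_mul]
    _ ≤ 15 / C * c + 2 * (15 / 16) ^ N * c := by
        gcongr
    _ = _ := by ring

end sample

end Pool.Agent.H610R2.Dim
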