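import Pool.Agent.H610R2.Dim.Orc

/-!
Values computed by the machines, and the strings they ask.
-/

namespace Pool.Agent.H610R2.Dim

open Pool.Agent.H578R2

theorem queries_congr (M : Machine) (A A' : Set (List Bool)) : ∀ (t : ℕ)
    (w : ℕ → Bool) (c : M.Config), (∀ s ∈ M.queries A t w c, (s ∈ A' ↔ s ∈ A)) →
    M.queries A' t w c = M.queries A t w c
  | 0, _, _, _ => rfl
  | t + 1, w, c, h => by
      have h1 : M.step A' (w 0) c = M.step A (w 0) c := by
        refine M.step_congr_oracle A A' (w 0) c fun k q hk => h (c.2 k) ?_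
        rw [Machine.queries, Finset.mem_union, hk]
        exact Or.inl (Finset.mem_singleton_self _)
      rw [Machine.queries, Machine.queries, h1]
      rw [queries_congr M A A' t _ _ fun s hs => h s ?_]
      rw [Machine.queries, Finset.mem_union]
      exact Or.inr hs

/-- the number written by machine `e` on input `x` with oracle `O` -/
noncomputable def val (e : ℕ) (x : List Bool) (O : Set (List Bool)) : ℚ :=
  outQ ((mm e).run O (tb e x.length) (fun _ => false) ((mm e).init x)).2

/-- the strings asked -/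
noncomputable def qs (e : ℕ) (x : List Bool) (O : Set (List Bool)) : Finset (List Bool) :=
  (mm e).queries O (tb e x.length) (fun _ => false) ((mm e).init x)

theorem qs_card (e : ℕ) (x : List Bool) (O : Set (List Bool)) :
    (qs e x O).card ≤ tb e x.length := (mm e).card_queries _ _ _ _

theorem qs_length {e : ℕ} {x : List Bool} {O : Set (List Bool)} {s : List Bool}
    (h : s ∈ qs e x O) : s.length ≤ x.length + tb e x.length :=
  (mm e).queries_length _ _ _ _ _ ((mm e).init_length x) s h

theorem val_congr {e : ℕ} {x : List Bool} {O O' : Set (List Bool)}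
    (h : ∀ s ∈ qs e x O, (s ∈ O' ↔ s ∈ O)) : val e x O' = val e x O := by
  rw [val, val, (mm e).run_congr_oracle O O' _ _ _ h]

theorem qs_congr {e : ℕ} {x : List Bool} {O O' : Set (List Bool)}
    (h : ∀ s ∈ qs e x O, (s ∈ O' ↔ s ∈ O)) : qs e x O' = qs e x O :=
  queries_congr (mm e) O O' _ _ _ h

theorem exists_fmach_stacks (M : Machine) : ∃ F : FMach, ∀ (A : Set (List Bool)) (t : ℕ)
    (w : ℕ → Bool) (x : List Bool),
    (F.toM.run A t w (F.toM.init x)).2 = (M.run A t w (M.init x)).2 := by
  classical
  have := M.fin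
  have := Fintype.ofFinite M.Q
  let e := Fintype.equivFin M.Q
  let F : FMach := ⟨Fintype.card M.Q, e M.start, fun q => (M.act (e.symm q)).map e⟩
  let e' : M.Q → F.toM.Q := e
  have hact : ∀ q, F.toM.act (e' q) = (M.act q).map e' := by
    intro q
    change (M.act (e.symm (e q))).map e = _
    rw [Equiv.symm_apply_apply]
    rfl
  refine ⟨F, fun A t w x => ?_⟩
  have h1 : F.toM.init x = Machine.cm e' (M.init x) := rfl
  rw [h1, Machine.run_cm e' hact]
  rfl

theorem PComp.exists_index {A : Set (List Bool)} {d : List Bool → ℝ} (h : PComp A d) :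
    ∃ e, ∀ r w, |((val e (inp r w) A : ℚ) : ℝ) - d w| ≤ (1 / 2 : ℝ) ^ r := by
  obtain ⟨M, k, -, h⟩ := h
  obtain ⟨F, hF⟩ := exists_fmach_stacks M
  obtain ⟨e, he⟩ := mach_surj (F, k)
  refine ⟨e, fun r w => ?_⟩
  have h1 : mm e = F.toM := by rw [mm, he]
  have h2 : tb e (inp r w).length = (inp r w).length ^ k + k := by rw [tb, he]
  have h3 : val e (inp r w) A = outQ (M.run A ((inp r w).length ^ k + k) (fun _ => false)
      (M.init (inp r w))).2 := by
    rw [val, h2, h1, hF]
  rw [h3]
  exact (h r w _).2

theorem tb_mono (e : ℕ) {n n' : ℕ} (h : n ≤ n') : tb e n ≤ tb e n' := by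
  unfold tb
  gcongr

end Pool.Agent.H610R2.Dim
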