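import Pool.Agent.H610R2.Dim.Defs

/-!
The enumeration of the strings, characteristic sequences.
-/

namespace Pool.Agent.H610R2.Dim

theorem bits_bval (l : List Bool) : (bval (l ++ [true])).bits = l ++ [true] ∧
    0 < bval (l ++ [true]) := by
  induction l with
  | nil => simp [bval]
  | cons b l ih =>
    obtain ⟨h1, h2⟩ := ih
    rw [List.cons_append, bval]
    have h3 : b.toNat + 2 * bval (l ++ [true]) = Nat.bit b (bval (l ++ [true])) := by
      cases b <;> simp [Nat.bit, add_comm]
    constructor
    · rw [h3, Nat.bits_append_bit _ _ (by omega), h1]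
    · omega

theorem bval_bits (n : ℕ) : bval n.bits = n := by
  induction n using Nat.binaryRec' with
  | zero => simp [bval]
  | bit b n h ih =>
    rw [Nat.bits_append_bit _ _ h, bval, ih]
    cases b <;> simp [Nat.bit, add_comm]

theorem bits_ne_nil (n : ℕ) : (n + 1).bits ≠ [] := by
  intro h
  have := bval_bits (n + 1)
  rw [h] at this
  simp [bval] at this

theorem bits_getLast (n : ℕ) : (n + 1).bits.getLast (bits_ne_nil n) = true := by
  have key : ∀ m : ℕ, ∀ h : m.bits ≠ [], m.bits.getLast h = true := by
    intro m
    induction m using Nat.binaryRec' with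
    | zero => intro h; exact absurd (by simp) h
    | bit b n hn ih =>
      intro h
      have e : (Nat.bit b n).bits = b :: n.bits := Nat.bits_append_bit _ _ hn
      simp only [e]
      by_cases h0 : n.bits = []
      · have hn0 : n = 0 := by
          have := bval_bits n
          rw [h0] at this
          simp [bval] at this
          exact this.symm
        simp only [h0, List.getLast_singleton]
        exact hn hn0
      · rw [List.getLast_cons h0]
        exact ih h0
  exact key _ _

theorem str_spec (n : ℕ) : (n + 1).bits = (str n).reverse ++ [true] := by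
  have h := bits_ne_nil n
  have h1 := bits_getLast n
  have h2 : (n + 1).bits.dropLast ++ [true] = (n + 1).bits := by
    rw [← h1]
    exact List.dropLast_append_getLast h
  rw [str, List.tail_reverse, List.reverse_reverse, h2]

theorem str_inj : Function.Injective str := by
  intro m n h
  have h1 := str_spec m
  have h2 := str_spec n
  rw [h, ← h2] at h1
  have := congrArg bval h1
  rw [bval_bits, bval_bits] at this
  omega

theorem str_surj : Function.Surjective str := by
  intro x
  obtain ⟨h1, h2⟩ := bits_bval x.reverse
  refine ⟨bval (x.reverse ++ [true]) - 1, ?_⟩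
  have h3 : bval (x.reverse ++ [true]) - 1 + 1 = bval (x.reverse ++ [true]) := by omega
  rw [str, h3, h1]
  simp

/-- the index of a string -/
noncomputable def idx (x : List Bool) : ℕ := (str_surj x).choose

@[simp] theorem str_idx (x : List Bool) : str (idx x) = x := (str_surj x).choose_spec

@[simp] theorem idx_str (n : ℕ) : idx (str n) = n := str_inj (str_idx _)

theorem length_str (n : ℕ) : (str n).length + 1 = (n + 1).size := by
  have h := congrArg List.length (str_spec n)
  rw [← Nat.size_eq_bits_len, h]
  simp

theorem le_length_str {n k : ℕ} : k ≤ (str n).length ↔ 2 ^ k ≤ n + 1 := by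
  rw [← Nat.lt_size, ← length_str]
  omega

theorem length_str_lt {n k : ℕ} : (str n).length < k ↔ n + 1 < 2 ^ k := by
  have := @le_length_str n k
  omega

theorem le_length_iff {x : List Bool} {k : ℕ} : k ≤ x.length ↔ 2 ^ k ≤ idx x + 1 := by
  rw [← le_length_str, str_idx]

theorem length_lt_iff {x : List Bool} {k : ℕ} : x.length < k ↔ idx x + 1 < 2 ^ k := by
  rw [← length_str_lt, str_idx]

@[simp] theorem chi_length (L : Set (List Bool)) (n : ℕ) : (chi L n).length = n := by
  simp [chi]

open Classical in
theorem chi_succ (L : Set (List Bool)) (n : ℕ) :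
    chi L (n + 1) = chi L n ++ [decide (str n ∈ L)] := by
  simp [chi, List.range_succ]

theorem chi_congr {L L' : Set (List Bool)} {n : ℕ} (h : ∀ i < n, (str i ∈ L ↔ str i ∈ L')) :
    chi L n = chi L' n := by
  unfold chi
  refine List.map_congr_left fun i hi => ?_
  rw [List.mem_range] at hi
  rw [decide_eq_decide]
  exact h i hi

open Classical in
theorem chi_getD (L : Set (List Bool)) {n i : ℕ} (h : i < n) (b : Bool) :
    (chi L n).getD i b = decide (str i ∈ L) := by
  rw [List.getD_eq_getElem _ _ (by simpa using h)]
  simp [chi]

@[simp] theorem inp_length (r : ℕ) (w : List Bool) : (inp r w).length = r + w.length + 1 := by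
  simp [inp]; omega

theorem inp_inj : ∀ {r r' : ℕ} {w w' : List Bool}, inp r w = inp r' w' → r = r' ∧ w = w'
  | 0, 0, w, w', h => by simpa [inp] using h
  | 0, r' + 1, w, w', h => by simp [inp, List.replicate_succ] at h
  | r + 1, 0, w, w', h => by simp [inp, List.replicate_succ] at h
  | r + 1, r' + 1, w, w', h => by
      simp only [inp, List.replicate_succ, List.cons_append, List.cons.injEq, true_and] at h
      obtain ⟨h1, h2⟩ := inp_inj (r := r) (r' := r') h
      exact ⟨by rw [h1], h2⟩

end Pool.Agent.H610R2.Dim
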