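import Pool.Agent.H610R2.Dim.Hits

/-!
The choice of the type of a block, against a nondeterministic machine.
-/

namespace Pool.Agent.H610R2.Dim

open Finset

open Pool.Agent.H578R2 in
/-- machine `e` accepts `x` -/
def Ac (e : ℕ) (β : Bet) (x : List Bool) (H : HP) : Prop := ∃ w, Acc e x w (orc H β)

open Pool.Agent.H578R2 in
theorem Ac_local {e : ℕ} {β : Bet} {x : List Bool} {H : HP} (h : Ac e β x H) :
    ∃ Q : Finset (List Bool), Q.card ≤ tb e x.length ∧
      ∀ H' : HP, (∀ y x', hc y x' ∈ Q → ((x', y) ∈ H' ↔ (x', y) ∈ H)) → Ac e β x H' := by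
  obtain ⟨w, hw⟩ := h
  obtain ⟨Q, h1, h2, h3⟩ := Acc.local e x w (orc H β)
  refine ⟨Q, h1, fun H' hH' => ⟨w, ?_⟩⟩
  rw [h3 (orc H' β)]
  · exact hw
  · intro s hs
    exact orc_congr (N := s.length) le_rfl (fun _ _ _ => rfl) (fun y x' hsx => hH' y x' (hsx ▸ hs))

section sample

variable {m0 N : ℕ} {past : HP}

theorem Hs_false (ω : Sp m0 N × Sp m0 N) : Hs false past ω = past ∪ A1 ω.1 := by
  ext q
  simp [Hs]

theorem mem_Hs_true (ω : Sp m0 N × Sp m0 N) (q : List Bool × List Bool) :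
    q ∈ Hs true past ω ↔ (q ∈ past ∪ A1 ω.1 ∨ q ∈ A1 ω.2) := by
  simp [Hs]

open Classical in
theorem card_fix (i : Fin N) (y : Fin (2 * (str (m0 + i)).length ^ 2) → Bool) :
    ((univ.filter fun ω : Sp m0 N => (ω i).2 = y).card : ℝ) *
      2 ^ (2 * (str (m0 + i)).length ^ 2) = (Fintype.card (Sp m0 N) : ℝ) := by
  have h := resample (Z := fun i : Fin N => ZZ (m0 + i)) i
    (fun ω => if (ω i).2 = y then (1 : ℝ) else 0)
  simp only [Function.update_self] at h
  have h1 : ∑ u : ZZ (m0 + i), (if u.2 = y then (1 : ℝ) else 0) = 2 := by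
    rw [Fintype.sum_prod_type]
    simp
  rw [h1, Finset.sum_const, Finset.card_univ, nsmul_eq_mul, Finset.sum_boole, card_ZZ] at h
  push_cast at h
  linarith

open Classical in
/-- few samples have a given hidden pair -/
theorem card_code (a : ℕ) (ha : ∀ i : Fin N, a ≤ (str (m0 + i)).length) (q : List Bool) :
    ((univ.filter fun ω : Sp m0 N => ∃ p ∈ A1 ω, hc p.2 p.1 = q).card : ℝ) ≤
      (Fintype.card (Sp m0 N) : ℝ) / 2 ^ (2 * a ^ 2) := by
  by_cases h : ∃ (ω : Sp m0 N) (i : Fin N), hc (List.ofFn (ω i).2) (str (m0 + i)) = q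
  · obtain ⟨ω0, i0, h0⟩ := h
    have h1 : (univ.filter fun ω : Sp m0 N => ∃ p ∈ A1 ω, hc p.2 p.1 = q) ⊆
        univ.filter fun ω : Sp m0 N => (ω i0).2 = (ω0 i0).2 := by
      intro ω hω
      rw [Finset.mem_filter] at hω ⊢
      refine ⟨Finset.mem_univ _, ?_⟩
      obtain ⟨-, p, ⟨i, -, hi⟩, hq⟩ := hω
      rw [hi] at hq
      simp only at hq
      rw [← h0] at hq
      obtain ⟨h2, h3⟩ := hc_inj hq
      have h4 : i = i0 := Fin.ext (by have := str_inj h3; omega)
      subst h4
      exact List.ofFn_injective h2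
    have h2 := card_fix i0 (ω0 i0).2
    have h3 : ((univ.filter fun ω : Sp m0 N => ∃ p ∈ A1 ω, hc p.2 p.1 = q).card : ℝ) ≤
        ((univ.filter fun ω : Sp m0 N => (ω i0).2 = (ω0 i0).2).card : ℝ) := by
      exact_mod_cast Finset.card_le_card h1
    refine h3.trans ?_
    rw [le_div_iff₀ (by positivity), ← h2]
    refine mul_le_mul_of_nonneg_left ?_ (by positivity)
    refine pow_le_pow_right₀ (by norm_num) ?_
    have := Nat.pow_le_pow_left (ha i0) 2
    omega
  · have h1 : (univ.filter fun ω : Sp m0 N => ∃ p ∈ A1 ω, hc p.2 p.1 = q) = ∅ := by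
      rw [Finset.filter_eq_empty_iff]
      rintro ω - ⟨p, ⟨i, -, hi⟩, hq⟩
      exact h ⟨ω, i, by rw [← hq, hi]⟩
    rw [h1]
    simp only [Finset.card_empty, Nat.cast_zero]
    positivity

open Classical in
theorem card_codes (a : ℕ) (ha : ∀ i : Fin N, a ≤ (str (m0 + i)).length)
    (Q : Finset (List Bool)) :
    ((univ.filter fun ω : Sp m0 N => ∃ p ∈ A1 ω, hc p.2 p.1 ∈ Q).card : ℝ) ≤
      (Q.card : ℝ) * ((Fintype.card (Sp m0 N) : ℝ) / 2 ^ (2 * a ^ 2)) := by
  have h1 : (univ.filter fun ω : Sp m0 N => ∃ p ∈ A1 ω, hc p.2 p.1 ∈ Q) ⊆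
      Q.biUnion fun q => univ.filter fun ω : Sp m0 N => ∃ p ∈ A1 ω, hc p.2 p.1 = q := by
    intro ω hω
    rw [Finset.mem_filter] at hω
    obtain ⟨-, p, hp, hq⟩ := hω
    rw [Finset.mem_biUnion]
    exact ⟨_, hq, Finset.mem_filter.2 ⟨Finset.mem_univ _, p, hp, rfl⟩⟩
  calc ((univ.filter fun ω : Sp m0 N => ∃ p ∈ A1 ω, hc p.2 p.1 ∈ Q).card : ℝ)
      ≤ ((Q.biUnion fun q => univ.filter fun ω : Sp m0 N =>
        ∃ p ∈ A1 ω, hc p.2 p.1 = q).card : ℝ) := by exact_mod_cast Finset.card_le_card h1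
    _ ≤ ∑ q ∈ Q, ((univ.filter fun ω : Sp m0 N => ∃ p ∈ A1 ω, hc p.2 p.1 = q).card : ℝ) := by
        exact_mod_cast Finset.card_biUnion_le
    _ ≤ ∑ _q ∈ Q, (Fintype.card (Sp m0 N) : ℝ) / 2 ^ (2 * a ^ 2) :=
        Finset.sum_le_sum fun q _ => card_code a ha q
    _ = _ := by rw [Finset.sum_const, nsmul_eq_mul]

open Classical in
/-- the number of the single samples for which the machine accepts -/
noncomputable def ac (e : ℕ) (β : Bet) (m0 N : ℕ) (past : HP) (x : List Bool) : ℕ :=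
  (univ.filter fun ω : Sp m0 N => Ac e β x (past ∪ A1 ω)).card

open Classical in
theorem card_false (e : ℕ) (β : Bet) (x : List Bool) :
    ((univ.filter fun ω : Sp m0 N × Sp m0 N => Ac e β x (Hs false past ω)).card : ℝ) =
      (ac e β m0 N past x : ℝ) * (Fintype.card (Sp m0 N) : ℝ) := by
  have h : (univ.filter fun ω : Sp m0 N × Sp m0 N => Ac e β x (Hs false past ω)) =
      (univ.filter fun ω : Sp m0 N => Ac e β x (past ∪ A1 ω)) ×ˢ (univ : Finset (Sp m0 N)) := by
    ext ω
    simp only [Hs_false, Finset.mem_filter, Finset.mem_univ, true_and, Finset.mem_product,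
      and_true]
  rw [h, Finset.card_product, ac, Finset.card_univ]
  push_cast
  rfl

open Classical in
theorem card_true (e : ℕ) (β : Bet) (x : List Bool) (a : ℕ)
    (ha : ∀ i : Fin N, a ≤ (str (m0 + i)).length)
    (hε : 50 * Pool.Agent.H578R2.tb e x.length ≤ 2 ^ (2 * a ^ 2)) :
    ((univ.filter fun ω : Sp m0 N × Sp m0 N => ¬ Ac e β x (Hs true past ω)).card : ℝ) ≤
      ((Fintype.card (Sp m0 N) : ℝ) - ac e β m0 N past x) ^ 2 +
        1 / 25 * (Fintype.card (Sp m0 N) : ℝ) ^ 2 := by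
  -- the chosen sets of questions
  have hQ : ∀ ω : Sp m0 N, ∃ Q : Finset (List Bool), Q.card ≤ Pool.Agent.H578R2.tb e x.length ∧
      (Ac e β x (past ∪ A1 ω) → ∀ H' : HP,
        (∀ y x', hc y x' ∈ Q → ((x', y) ∈ H' ↔ (x', y) ∈ past ∪ A1 ω)) → Ac e β x H') := by
    intro ω
    by_cases h : Ac e β x (past ∪ A1 ω)
    · obtain ⟨Q, h1, h2⟩ := Ac_local h
      exact ⟨Q, h1, fun _ => h2⟩
    · exact ⟨∅, by simp, fun h' => absurd h' h⟩
  choose Q hQ1 hQ2 using hQ
  set n1 : ℝ := (Fintype.card (Sp m0 N) : ℝ) with hn1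
  have hn1' : 0 ≤ n1 := by positivity
  let R : Finset (Sp m0 N) := univ.filter fun ω => ¬ Ac e β x (past ∪ A1 ω)
  let E1 : Finset (Sp m0 N × Sp m0 N) := univ.filter fun ω => ∃ p ∈ A1 ω.2, hc p.2 p.1 ∈ Q ω.1
  let E2 : Finset (Sp m0 N × Sp m0 N) := univ.filter fun ω => ∃ p ∈ A1 ω.1, hc p.2 p.1 ∈ Q ω.2
  have hsub : (univ.filter fun ω : Sp m0 N × Sp m0 N => ¬ Ac e β x (Hs true past ω)) ⊆
      R ×ˢ R ∪ (E1 ∪ E2) := by
    intro ω hω
    rw [Finset.mem_filter] at hω
    by_contra hcon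
    rw [Finset.mem_union, Finset.mem_union, not_or, not_or] at hcon
    obtain ⟨c1, c2, c3⟩ := hcon
    apply hω.2
    by_cases h1 : Ac e β x (past ∪ A1 ω.1)
    · refine hQ2 ω.1 h1 _ fun y x' hq => ?_
      rw [mem_Hs_true]
      constructor
      · rintro (h | h)
        · exact h
        · exact absurd (Finset.mem_filter.2 ⟨Finset.mem_univ _, _, h, hq⟩) c2
      · exact Or.inl
    · have h2 : Ac e β x (past ∪ A1 ω.2) := by
        by_contra h2
        apply c1
        rw [Finset.mem_product]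
        exact ⟨Finset.mem_filter.2 ⟨Finset.mem_univ _, h1⟩,
          Finset.mem_filter.2 ⟨Finset.mem_univ _, h2⟩⟩
      refine hQ2 ω.2 h2 _ fun y x' hq => ?_
      rw [mem_Hs_true]
      constructor
      · rintro ((h | h) | h)
        · exact Or.inl h
        · exact absurd (Finset.mem_filter.2 ⟨Finset.mem_univ _, _, h, hq⟩) c3
        · exact Or.inr h
      · rintro (h | h)
        · exact Or.inl (Or.inl h)
        · exact Or.inr h
  have hR : (R.card : ℝ) = n1 - ac e β m0 N past x := by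
    have h1 := Finset.card_filter_add_card_filter_not (s := (univ : Finset (Sp m0 N)))
      (p := fun ω => Ac e β x (past ∪ A1 ω))
    rw [Finset.card_univ] at h1
    have h2 : (ac e β m0 N past x : ℝ) + R.card = n1 := by
      rw [hn1, ← h1]
      push_cast
      rfl
    linarith
  have hfix : ∀ ω : Sp m0 N, ((univ.filter fun ω' : Sp m0 N =>
      ∃ p ∈ A1 ω', hc p.2 p.1 ∈ Q ω).card : ℝ) ≤ 1 / 50 * n1 := by
    intro ω
    refine (card_codes a ha (Q ω)).trans ?_
    have h1 : ((Q ω).card : ℝ) ≤ Pool.Agent.H578R2.tb e x.length := by exact_mod_cast hQ1 ω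
    have h2 : (50 * Pool.Agent.H578R2.tb e x.length : ℝ) ≤ 2 ^ (2 * a ^ 2) := by exact_mod_cast hε
    rw [← mul_div_assoc, div_le_iff₀ (by positivity)]
    nlinarith
  have hE1 : (E1.card : ℝ) ≤ 1 / 50 * n1 ^ 2 := by
    have h1 : (E1.card : ℝ) = ∑ ω : Sp m0 N, ((univ.filter fun ω' : Sp m0 N =>
        ∃ p ∈ A1 ω', hc p.2 p.1 ∈ Q ω).card : ℝ) := by
      rw [← Finset.sum_boole]
      simp only [← Finset.sum_boole]
      exact Fintype.sum_prod_type _
    rw [h1]
    calc ∑ ω : Sp m0 N, ((univ.filter fun ω' : Sp m0 N =>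
        ∃ p ∈ A1 ω', hc p.2 p.1 ∈ Q ω).card : ℝ) ≤ ∑ _ω : Sp m0 N, 1 / 50 * n1 :=
          Finset.sum_le_sum fun ω _ => hfix ω
      _ = _ := by
          rw [Finset.sum_const, Finset.card_univ, nsmul_eq_mul]
          ring
  have hE2 : (E2.card : ℝ) ≤ 1 / 50 * n1 ^ 2 := by
    have h1 : (E2.card : ℝ) = ∑ ω : Sp m0 N, ((univ.filter fun ω' : Sp m0 N =>
        ∃ p ∈ A1 ω', hc p.2 p.1 ∈ Q ω).card : ℝ) := by
      rw [← Finset.sum_boole]
      simp only [← Finset.sum_boole]
      exact Fintype.sum_prod_type_right _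
    rw [h1]
    calc ∑ ω : Sp m0 N, ((univ.filter fun ω' : Sp m0 N =>
        ∃ p ∈ A1 ω', hc p.2 p.1 ∈ Q ω).card : ℝ) ≤ ∑ _ω : Sp m0 N, 1 / 50 * n1 :=
          Finset.sum_le_sum fun ω _ => hfix ω
      _ = _ := by
          rw [Finset.sum_const, Finset.card_univ, nsmul_eq_mul]
          ring
  calc ((univ.filter fun ω : Sp m0 N × Sp m0 N => ¬ Ac e β x (Hs true past ω)).card : ℝ)
      ≤ ((R ×ˢ R ∪ (E1 ∪ E2)).card : ℝ) := by exact_mod_cast Finset.card_le_card hsub
    _ ≤ ((R ×ˢ R).card : ℝ) + ((E1.card : ℝ) + (E2.card : ℝ)) := by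
        have h1 := Finset.card_union_le (R ×ˢ R) (E1 ∪ E2)
        have h2 := Finset.card_union_le E1 E2
        exact_mod_cast h1.trans (Nat.add_le_add_left h2 _)
    _ = R.card ^ 2 + ((E1.card : ℝ) + (E2.card : ℝ)) := by
        rw [Finset.card_product]
        push_cast
        ring
    _ ≤ _ := by
        rw [hR]
        linarith

open Classical in
/-- the wrong predictions -/
noncomputable def errs (e : ℕ) (β : Bet) (τ : Bool) (Q : Finset ℕ) (H : HP) : Finset ℕ :=
  Q.filter fun i => decide (Ac e β (str i) H) = !τ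

theorem types (e : ℕ) (β : Bet) (a n : ℕ) (ha : ∀ i : Fin N, a ≤ (str (m0 + i)).length)
    (hε : 50 * Pool.Agent.H578R2.tb e n ≤ 2 ^ (2 * a ^ 2)) :
    ∃ (τ : Bool) (Q : Finset ℕ), Q ⊆ Finset.Ico (2 ^ n - 1) (2 ^ (n + 1) - 1) ∧
      2 ^ n ≤ 2 * Q.card ∧
      ∑ ω : Sp m0 N × Sp m0 N, ((errs e β τ Q (Hs τ past ω)).card : ℝ) ≤
        2 / 5 * Q.card * (Fintype.card (Sp m0 N × Sp m0 N) : ℝ) := by
  classical
  set L := Finset.Ico (2 ^ n - 1) (2 ^ (n + 1) - 1) with hL
  have hLcard : L.card = 2 ^ n := by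
    rw [hL, Nat.card_Ico]
    have : 2 ^ (n + 1) = 2 * 2 ^ n := by ring
    have h1 : 1 ≤ 2 ^ n := Nat.one_le_two_pow
    omega
  have hlen : ∀ i ∈ L, (str i).length = n := by
    intro i hi
    rw [hL, Finset.mem_Ico] at hi
    have h1 : n ≤ (str i).length := by
      rw [le_length_str]
      omega
    have h2 : (str i).length < n + 1 := by
      rw [length_str_lt]
      omega
    omega
  set n1 : ℝ := (Fintype.card (Sp m0 N) : ℝ) with hn1
  have hn1' : 0 ≤ n1 := by positivity
  have hcard : (Fintype.card (Sp m0 N × Sp m0 N) : ℝ) = n1 ^ 2 := by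
    rw [Fintype.card_prod]
    push_cast
    ring
  have hswap : ∀ (τ : Bool) (Q : Finset ℕ), ∑ ω : Sp m0 N × Sp m0 N,
      ((errs e β τ Q (Hs τ past ω)).card : ℝ) = ∑ i ∈ Q,
      ((univ.filter fun ω : Sp m0 N × Sp m0 N =>
        decide (Ac e β (str i) (Hs τ past ω)) = !τ).card : ℝ) := by
    intro τ Q
    simp only [errs, ← Finset.sum_boole]
    exact Finset.sum_comm
  set S := L.filter fun i => 5 * ac e β m0 N past (str i) ≤ 2 * Fintype.card (Sp m0 N) with hS
  by_cases hc : 2 ^ n ≤ 2 * S.card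
  · refine ⟨false, S, Finset.filter_subset _ _, hc, ?_⟩
    rw [hswap, hcard]
    calc ∑ i ∈ S, ((univ.filter fun ω : Sp m0 N × Sp m0 N =>
          decide (Ac e β (str i) (Hs false past ω)) = !false).card : ℝ)
        ≤ ∑ _i ∈ S, 2 / 5 * n1 ^ 2 := by
          refine Finset.sum_le_sum fun i hi => ?_
          have h1 : (univ.filter fun ω : Sp m0 N × Sp m0 N =>
              decide (Ac e β (str i) (Hs false past ω)) = !false) =
              univ.filter fun ω : Sp m0 N × Sp m0 N => Ac e β (str i) (Hs false past ω) := by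
            ext ω
            simp
          rw [h1, card_false]
          have h2 := (Finset.mem_filter.1 hi).2
          have h3 : (5 * ac e β m0 N past (str i) : ℝ) ≤ 2 * n1 := by
            rw [hn1]
            exact_mod_cast h2
          nlinarith
      _ = _ := by
          rw [Finset.sum_const, nsmul_eq_mul]
          ring
  · set T := L.filter fun i => ¬ (5 * ac e β m0 N past (str i) ≤ 2 * Fintype.card (Sp m0 N))
      with hT
    have hST : S.card + T.card = 2 ^ n := by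
      rw [← hLcard]
      exact Finset.card_filter_add_card_filter_not _
    refine ⟨true, T, Finset.filter_subset _ _, by omega, ?_⟩
    rw [hswap, hcard]
    calc ∑ i ∈ T, ((univ.filter fun ω : Sp m0 N × Sp m0 N =>
          decide (Ac e β (str i) (Hs true past ω)) = !true).card : ℝ)
        ≤ ∑ _i ∈ T, 2 / 5 * n1 ^ 2 := by
          refine Finset.sum_le_sum fun i hi => ?_
          have h1 : (univ.filter fun ω : Sp m0 N × Sp m0 N =>
              decide (Ac e β (str i) (Hs true past ω)) = !true) =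
              univ.filter fun ω : Sp m0 N × Sp m0 N => ¬ Ac e β (str i) (Hs true past ω) := by
            ext ω
            simp
          rw [h1]
          have hi' := Finset.mem_filter.1 hi
          refine (card_true e β (str i) a ha (by rw [hlen i hi'.1]; exact hε)).trans ?_
          have h2 : 2 * Fintype.card (Sp m0 N) < 5 * ac e β m0 N past (str i) := not_le.1 hi'.2
          have h3 : 2 * n1 ≤ (5 * ac e β m0 N past (str i) : ℝ) := by
            rw [hn1]
            exact_mod_cast h2.le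
          have h4 : (ac e β m0 N past (str i) : ℝ) ≤ n1 := by
            have : ac e β m0 N past (str i) ≤ Fintype.card (Sp m0 N) := by
              rw [ac, ← Finset.card_univ]
              exact Finset.card_filter_le _ _
            rw [hn1]
            exact_mod_cast this
          have h5 : 0 ≤ n1 - ac e β m0 N past (str i) := by linarith
          have h6 : n1 - ac e β m0 N past (str i) ≤ 3 / 5 * n1 := by linarith
          have h7 : (n1 - ac e β m0 N past (str i)) ^ 2 ≤ (3 / 5 * n1) ^ 2 :=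
            pow_le_pow_left₀ h5 h6 2
          have h8 : (3 / 5 * n1) ^ 2 = 9 / 25 * n1 ^ 2 := by ring
          rw [h8] at h7
          linarith
      _ = _ := by
          rw [Finset.sum_const, nsmul_eq_mul]
          ring

end sample

end Pool.Agent.H610R2.Dim
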